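import Mathlib

/-! A checker for the finite certificate of the genus three upper bound: definitions. -/

namespace Pool.Agent.MP_00906f_gt.H46C

/-- Integer vectors of length six. -/
structure V where
  a0 : ℤ
  a1 : ℤ
  a2 : ℤ
  a3 : ℤ
  a4 : ℤ
  a5 : ℤ

/-- The letter `2 i` is the transvection in `c i`, the letter `2 i + 1` its inverse. -/
def tv (l : ℕ) (x : V) : V :=
  match l with
  | 0 => ⟨x.a0 - x.a1, x.a1, x.a2, x.a3, x.a4, x.a5⟩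
  | 1 => ⟨x.a0 + x.a1, x.a1, x.a2, x.a3, x.a4, x.a5⟩
  | 2 => ⟨x.a0, x.a1 + (x.a0 - x.a2), x.a2, x.a3, x.a4, x.a5⟩
  | 3 => ⟨x.a0, x.a1 - (x.a0 - x.a2), x.a2, x.a3, x.a4, x.a5⟩
  | 4 => ⟨x.a0, x.a1, x.a2 + (x.a1 - x.a3), x.a3, x.a4, x.a5⟩
  | 5 => ⟨x.a0, x.a1, x.a2 - (x.a1 - x.a3), x.a3, x.a4, x.a5⟩
  | 6 => ⟨x.a0, x.a1, x.a2, x.a3 + (x.a2 - x.a4), x.a4, x.a5⟩
  | 7 => ⟨x.a0, x.a1, x.a2, x.a3 - (x.a2 - x.a4), x.a4, x.a5⟩
  | 8 => ⟨x.a0, x.a1, x.a2, x.a3, x.a4 + (x.a3 - x.a5), x.a5⟩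
  | 9 => ⟨x.a0, x.a1, x.a2, x.a3, x.a4 - (x.a3 - x.a5), x.a5⟩
  | 10 => ⟨x.a0, x.a1, x.a2, x.a3, x.a4, x.a5 + x.a4⟩
  | 11 => ⟨x.a0, x.a1, x.a2, x.a3, x.a4, x.a5 - x.a4⟩
  | _ => x

def act (w : List ℕ) (x : V) : V := w.foldr tv x

def dot (u x : V) : ℤ :=
  u.a0 * x.a0 + u.a1 * x.a1 + u.a2 * x.a2 + u.a3 * x.a3 + u.a4 * x.a4 + u.a5 * x.a5

/-- The transpose of `tv`. -/
def step (l : ℕ) (u : V) : V :=
  match u with
  | ⟨a0, a1, a2, a3, a4, a5⟩ =>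
    match l with
    | 0 => ⟨a0, Int.sub a1 a0, a2, a3, a4, a5⟩
    | 1 => ⟨a0, Int.add a1 a0, a2, a3, a4, a5⟩
    | 2 => ⟨Int.add a0 a1, a1, Int.sub a2 a1, a3, a4, a5⟩
    | 3 => ⟨Int.sub a0 a1, a1, Int.add a2 a1, a3, a4, a5⟩
    | 4 => ⟨a0, Int.add a1 a2, a2, Int.sub a3 a2, a4, a5⟩
    | 5 => ⟨a0, Int.sub a1 a2, a2, Int.add a3 a2, a4, a5⟩
    | 6 => ⟨a0, a1, Int.add a2 a3, a3, Int.sub a4 a3, a5⟩
    | 7 => ⟨a0, a1, Int.sub a2 a3, a3, Int.add a4 a3, a5⟩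
    | 8 => ⟨a0, a1, a2, Int.add a3 a4, a4, Int.sub a5 a4⟩
    | 9 => ⟨a0, a1, a2, Int.sub a3 a4, a4, Int.add a5 a4⟩
    | 10 => ⟨a0, a1, a2, a3, Int.add a4 a5, a5⟩
    | 11 => ⟨a0, a1, a2, a3, Int.sub a4 a5, a5⟩
    | _ => ⟨a0, a1, a2, a3, a4, a5⟩

/-- The majorant of `step`. -/
def stepA (l : ℕ) (u : V) : V :=
  match u with
  | ⟨a0, a1, a2, a3, a4, a5⟩ =>
    match Nat.div l 2 with
    | 0 => ⟨a0, Int.add a1 a0, a2, a3, a4, a5⟩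
    | 1 => ⟨Int.add a0 a1, a1, Int.add a2 a1, a3, a4, a5⟩
    | 2 => ⟨a0, Int.add a1 a2, a2, Int.add a3 a2, a4, a5⟩
    | 3 => ⟨a0, a1, Int.add a2 a3, a3, Int.add a4 a3, a5⟩
    | 4 => ⟨a0, a1, a2, Int.add a3 a4, a4, Int.add a5 a4⟩
    | 5 => ⟨a0, a1, a2, a3, Int.add a4 a5, a5⟩
    | _ => ⟨a0, a1, a2, a3, a4, a5⟩

noncomputable def run (w : List ℕ) : V → V :=
  List.rec (motive := fun _ => V → V) (fun u => u) (fun l _ ih u => ih (step l u)) w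

noncomputable def runA (w : List ℕ) : V → V :=
  List.rec (motive := fun _ => V → V) (fun u => u) (fun l _ ih u => ih (stepA l u)) w

/-- The word of the inverse of `s0 s1 s2 s3 s4 s5`. -/
def dinv : List ℕ := [11, 9, 7, 5, 3, 1]

def dp : ℕ → List ℕ
  | 0 => []
  | k + 1 => dp k ++ dinv

def phi (x : V) : ℤ :=
  x.a0 + 2 ^ 36 * x.a1 + 2 ^ 72 * x.a2 + 2 ^ 108 * x.a3 + 2 ^ 144 * x.a4

def psi (x : V) : ℤ :=
  x.a1 + 2 ^ 72 * x.a2 + 2 ^ 144 * x.a3 + 2 ^ 252 * x.a4 + 2 ^ 396 * x.a5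

def pk : ℕ → V → ℤ
  | 0, _ => 0
  | n + 1, x => phi x + 2 ^ 577 * (psi x + 2 ^ 577 * pk n (act dinv x))

def off : ℕ → ℤ
  | 0 => 0
  | n + 1 => 2 ^ 576 + 2 ^ 577 * (2 ^ 576 + 2 ^ 577 * off n)

def uu (n : ℕ) : V :=
  ⟨pk n ⟨1, 0, 0, 0, 0, 0⟩, pk n ⟨0, 1, 0, 0, 0, 0⟩, pk n ⟨0, 0, 1, 0, 0, 0⟩,
    pk n ⟨0, 0, 0, 1, 0, 0⟩, pk n ⟨0, 0, 0, 0, 1, 0⟩, pk n ⟨0, 0, 0, 0, 0, 1⟩⟩

def u0 : V := uu 7

def off7 : ℤ := off 7

def XX : ℕ := Nat.pow 2 576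

def ext (k : ℕ) (A : ℤ) : ℕ := Nat.shiftRight (Int.toNat (Int.add A off7)) (Nat.mul 1154 k)

def key2 (tag a b : ℕ) : ℕ :=
  Nat.add (Nat.mul 2 (Nat.mod (Nat.add (Nat.mul (Nat.mod a XX) (Nat.mod (Nat.shiftRight b 577) XX))
    (Nat.mul (Nat.sub XX (Nat.mod b XX)) (Nat.mod (Nat.shiftRight a 577) XX))) XX)) tag

def key (tag k : ℕ) (A B : ℤ) : ℕ := key2 tag (ext k A) (ext k B)

/-- The two base pairs. -/
def p1 (tag : ℕ) : V := if tag = 0 then ⟨1, 0, 0, 0, 0, 0⟩ else ⟨1, 0, 1, 0, 1, 0⟩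

def p2 (tag : ℕ) : V := if tag = 0 then ⟨0, 1, 0, 0, 0, 0⟩ else ⟨0, 0, 0, 0, 0, 1⟩

/-- A term of the relation. -/
structure Tm where
  tag : ℕ
  sg : Bool
  A : ℤ
  B : ℤ

def terms (u : V) : List Tm :=
  match u with
  | ⟨a0, a1, a2, a3, a4, a5⟩ =>
    [⟨1, true, Int.add (Int.add a0 a2) a4, Int.sub (Int.add a3 (Int.sub a5 a4)) a2⟩,
     ⟨1, false, Int.add (Int.add a0 a2) a4, Int.add a3 (Int.sub a5 a4)⟩,
     ⟨1, true, Int.add (Int.add a0 a2) a4, Int.add (Int.add a0 a0) (Int.sub a5 a4)⟩,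
     ⟨1, false, Int.add (Int.add a0 a2) a4, a5⟩,
     ⟨0, false, a3, a4⟩,
     ⟨0, true, Int.add a2 a3, a4⟩,
     ⟨0, false, Int.add (Int.add a0 a0) a2, Int.sub (Int.add a3 a4) (Int.add a0 a0)⟩,
     ⟨0, true, Int.add (Int.add a0 a0) a2, a3⟩,
     ⟨0, false, a0, Int.sub (Int.add (Int.add a1 a2) a4) a3⟩,
     ⟨0, false, a0, Int.add (Int.add (Int.add a1 a2) a4) a4⟩,
     ⟨0, true, a0, Int.sub a1 (Int.add a2 a3)⟩,
     ⟨0, true, a0, a1⟩]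

def wy0 : List ℕ := [0, 2, 0, 2, 0, 2]
def wy1 : List ℕ := [4] ++ wy0 ++ [5]
def wy2 : List ℕ := [6] ++ wy1 ++ [7]
def wg0 : List ℕ := [2, 4, 6, 0, 2, 4]

/-- The tags, signs and words of the terms of the relation. -/
def tspec : List (ℕ × Bool × List ℕ) :=
  [(1, true, [4, 6, 8]), (1, false, [6, 8]), (1, true, wy1 ++ wy2 ++ [8]), (1, false, wy1 ++ wy2),
   (0, false, [4, 6, 8] ++ wg0), (0, true, [6, 8] ++ wg0), (0, false, wy1 ++ wy2 ++ [8] ++ wg0),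
   (0, true, wy1 ++ wy2 ++ wg0), (0, false, [9, 7, 4]), (0, false, [7, 9, 9, 7, 4]),
   (0, true, [6, 5]), (0, true, [])]

/-- The search tree of the certificate. -/
inductive Tr where
  | leaf : Tr
  | node : Tr → ℕ → ℕ → ℕ → ℕ → ℕ → ℕ → Tr → Tr

noncomputable def find (T : Tr) (κ : ℕ) (k : ℕ → ℕ → ℕ → Bool) : Bool :=
  Tr.rec (motive := fun _ => Bool) false
    (fun _ ky i zT zZ _ _ _ ihl ihr =>
      cond (Nat.ble κ ky) (cond (Nat.ble ky κ) (k i zT zZ) ihl) ihr) T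

def cf (sg : Bool) (k : ℕ) : ℕ := cond sg (Nat.pow 2 k) (Nat.sub 127 (Nat.pow 2 k))

noncomputable def loop (T : Tr) (i κ zT zZ : ℕ) (fin : ℤ → ℕ → ℕ → Bool) (L : List Tm) :
    ℕ → ℤ → ℕ → ℕ → Bool :=
  List.rec (motive := fun _ => ℕ → ℤ → ℕ → ℕ → Bool) (fun _ c sT sZ => fin c sT sZ)
    (fun t _ ih h c sT sZ =>
      cond (Nat.ble 7 (Nat.mod h 8))
        (Nat.beq (key t.tag 0 t.A t.B) κ &&
          ih (Nat.div h 8) (Int.add c (cond t.sg 1 (-1))) (Nat.add sT (Nat.mul (cf t.sg 0) zT))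
            (Nat.add sZ (Nat.mul (cf t.sg 0) zZ)))
        (find T (key t.tag (Nat.mod h 8) t.A t.B) fun i' zT' zZ' =>
          Nat.blt i' i && ih (Nat.div h 8) c (Nat.add sT (Nat.mul (cf t.sg 0) zT'))
            (Nat.add sZ (Nat.mul (cf t.sg (Nat.mod h 8)) zZ')))) L

noncomputable def dec (w : ℕ) : List ℕ :=
  Nat.rec (motive := fun _ => ℕ → List ℕ) (fun _ => [])
    (fun _ ih w => cond (Nat.beq w 0) [] (Nat.pred (Nat.mod w 16) :: ih (Nat.div w 16))) 40 w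

/-- `1 + Y + ⋯ + Y ^ (n - 1)` with `Y = 2 ^ 21`. -/
def ones : ℕ → ℕ
  | 0 => 0
  | n + 1 => 1 + 2 ^ 21 * ones n

/-- The constants of a certificate. -/
structure Par where
  n : ℕ
  m7 : ℕ
  m14 : ℕ
  gens : List (ℕ × ℕ)

def msk (m z : ℕ) : Bool := Nat.beq (Nat.land z m) z

def zero (P : Par) (s : ℕ) : Bool := Nat.beq (Nat.mod s 127) 0 && msk P.m14 (Nat.div s 127)

noncomputable def small (w : List ℕ) : Bool :=
  match runA w ⟨1, 1, 1, 1, 1, 1⟩ with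
  | ⟨a0, a1, a2, a3, a4, a5⟩ =>
    Nat.ble (Int.toNat (Int.add (Int.add (Int.add a0 a1) (Int.add a2 a3)) (Int.add a4 a5))) 32768

def vA (tag : ℕ) (u : V) : ℤ := cond (Nat.beq tag 0) u.a0 (Int.add (Int.add u.a0 u.a2) u.a4)

def vB (tag : ℕ) (u : V) : ℤ := cond (Nat.beq tag 0) u.a1 u.a5

noncomputable def wkey (tag k : ℕ) (w : List ℕ) : ℕ := key tag k (vA tag (run w u0)) (vB tag (run w u0))

def unit (n i : ℕ) : ℕ := cond (Nat.blt i n) (Nat.pow 2 (Nat.mul 21 i)) 0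

noncomputable def genOK (P : Par) (κ zT zZ j : ℕ) (g : ℕ × ℕ) : Bool :=
  Nat.blt j P.gens.length && Nat.blt g.1 2 && small (dec g.2) && Nat.beq (wkey g.1 0 (dec g.2)) κ &&
    Nat.beq zT (unit P.n j) && Nat.beq zZ (unit P.n j)

noncomputable def entOK (P : Par) (T : Tr) (κ i zT zZ w h : ℕ) : Bool :=
  cond (Nat.blt h 68719476736) (genOK P κ zT zZ h (P.gens.getD h (0, 0)))
    (msk P.m7 zT && msk P.m7 zZ && small (dec w) &&
      loop T i κ zT zZ (fun c sT sZ => Nat.beq (Int.natAbs c) 1 && zero P sT && zero P sZ)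
        (terms (run (dec w) u0)) h 0 0 0)

noncomputable def treeOK (P : Par) (T : Tr) (c : ℕ) (S : Tr) : Bool :=
  Tr.rec (motive := fun _ => Bool) true
    (fun _ κ i zT zZ w h _ ihl ihr =>
      cond (Nat.beq (Nat.mod i 16) c) (entOK P T κ i zT zZ w h) true && ihl && ihr) S

/-- A further relation: word, hints, two vectors. -/
noncomputable def leftOK (P : Par) (T : Tr) (r : ℕ × ℕ × ℕ × ℕ) : Bool :=
  msk P.m7 r.2.2.1 && msk P.m7 r.2.2.2 && small (dec r.1) &&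
    loop T 1000000 0 0 0 (fun c sT sZ => Nat.beq (Int.natAbs c) 0 && zero P sT && zero P sZ)
      (terms (run (dec r.1) u0)) r.2.1 0 (Nat.mul 126 r.2.2.1) (Nat.mul 126 r.2.2.2)

noncomputable def allB {α : Type} (p : α → Bool) (L : List α) : Bool :=
  List.rec (motive := fun _ => Bool) true (fun a _ ih => p a && ih) L

noncomputable def comb (L : List ℕ) : ℕ → ℕ → ℕ :=
  List.rec (motive := fun _ => ℕ → ℕ → ℕ) (fun _ s => s)
    (fun z _ ih c s => ih (Nat.div c 128) (Nat.add s (Nat.mul (Nat.mod c 128) z))) L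

/-- The rows `C` express the unit vectors `i, i + 1, …` by the vectors `L`. -/
noncomputable def combOK (P : Par) (L : List ℕ) (C : List ℕ) : ℕ → Bool :=
  List.rec (motive := fun _ => ℕ → Bool) (fun i => Nat.beq i P.n)
    (fun c _ ih i => zero P (comb L c (Nat.mul 126 (unit P.n i))) && ih (Nat.succ i)) C

noncomputable def tarOK (T : Tr) (tag k : ℕ) (w : List ℕ) : Bool :=
  Nat.blt k 7 && Nat.blt tag 2 && small w && find T (wkey tag k w) fun _ _ _ => true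

/-- The words of the seven conjugates of `s0`. -/
def sw : List (List ℕ) :=
  [[0], [2], [4], [6], [8], [10], [11, 9, 7, 5, 3, 1, 0, 0, 2, 4, 6, 8, 10]]

noncomputable def tar7 (T : Tr) (g : ℕ × ℕ) (L : List (List ℕ)) : ℕ → Bool :=
  List.rec (motive := fun _ => ℕ → Bool) (fun _ => true)
    (fun s _ ih h => tarOK T g.1 (Nat.mod h 8) (s ++ dec g.2) && ih (Nat.div h 8)) L

noncomputable def tarsOK (T : Tr) (G : List (ℕ × ℕ)) : List ℕ → Bool :=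
  List.rec (motive := fun _ => List ℕ → Bool) (fun _ => true)
    (fun g _ ih H => tar7 T g sw (H.headD 0) && ih H.tail) G

end Pool.Agent.MP_00906f_gt.H46C
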