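import Pool.Agent.MP_00906f_gt.H46C.Defs

/-! Packed vectors. -/

namespace Pool.Agent.MP_00906f_gt.H46C

variable {A : Type} [AddCommGroup A]

def ev : List A → ℕ → A
  | [], _ => 0
  | y :: ys, z => (z % 2097152) • y + ev ys (z / 2097152)

def Bd : ℕ → ℕ → ℕ → Prop
  | 0, _, z => z = 0
  | n + 1, m, z => z % 2097152 ≤ m ∧ Bd n m (z / 2097152)

theorem Bd.mono {n m m' z : ℕ} (h : Bd n m z) (hm : m ≤ m') : Bd n m' z := by
  induction n generalizing z with
  | zero => exact h
  | succ n ih => exact ⟨h.1.trans hm, ih h.2⟩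

theorem Bd_zero (n m : ℕ) : Bd n m 0 := by
  induction n with
  | zero => rfl
  | succ n ih => exact ⟨Nat.zero_le _, ih⟩

theorem ev_zero (ys : List A) : ev ys 0 = 0 := by
  induction ys with
  | nil => rfl
  | cons y ys ih => simp [ev, ih]

theorem Bd.add (ys : List A) {m m' z z' : ℕ} (h : Bd ys.length m z) (h' : Bd ys.length m' z')
    (hm : m + m' < 2097152) : Bd ys.length (m + m') (z + z') ∧ ev ys (z + z') = ev ys z + ev ys z' := by
  induction ys generalizing z z' with
  | nil => exact ⟨by simp only [List.length_nil, Bd] at *; omega, by simp [ev]⟩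
  | cons y ys ih =>
    obtain ⟨h1, h2⟩ := h
    obtain ⟨k1, k2⟩ := h'
    have e1 : (z + z') % 2097152 = z % 2097152 + z' % 2097152 := by omega
    have e2 : (z + z') / 2097152 = z / 2097152 + z' / 2097152 := by omega
    obtain ⟨i1, i2⟩ := ih h2 k2
    refine ⟨⟨by omega, by rw [e2]; exact i1⟩, ?_⟩
    simp only [ev]
    rw [e1, e2, i2, add_smul]
    abel

theorem Bd.smul (ys : List A) {m z : ℕ} (h : Bd ys.length m z) (c : ℕ) (hm : c * m < 2097152) :
    Bd ys.length (c * m) (c * z) ∧ ev ys (c * z) = c • ev ys z := by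
  induction c with
  | zero => simp [Bd_zero, ev_zero]
  | succ c ih =>
    rw [Nat.succ_mul] at hm
    obtain ⟨i1, i2⟩ := ih (by omega)
    obtain ⟨j1, j2⟩ := Bd.add ys i1 h hm
    rw [Nat.succ_mul, Nat.succ_mul, j2, i2, succ_nsmul]
    exact ⟨j1, rfl⟩

theorem Bd_of_and (n : ℕ) {μ z : ℕ} (hμ : μ < 2097152) (h : z &&& (μ * ones n) = z) : Bd n μ z := by
  induction n generalizing z with
  | zero => simpa [ones, Bd] using h.symm
  | succ n ih =>
    have e : μ * ones (n + 1) = μ + 2097152 * (μ * ones n) := by simp only [ones]; ring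
    have e1 : μ * ones (n + 1) % 2 ^ 21 = μ := by rw [e]; omega
    have e2 : μ * ones (n + 1) / 2 ^ 21 = μ * ones n := by rw [e]; omega
    have h1 := congrArg (· % 2 ^ 21) h
    have h2 := congrArg (· / 2 ^ 21) h
    simp only [Nat.and_mod_two_pow, Nat.and_div_two_pow, e1, e2] at h1 h2
    refine ⟨?_, ih h2⟩
    change z % 2 ^ 21 ≤ μ
    rw [← h1]
    exact Nat.and_le_right

theorem Bd_of_msk {n μ z : ℕ} (hμ : μ < 2097152) (h : msk (μ * ones n) z = true) : Bd n μ z :=
  Bd_of_and n hμ (Nat.eq_of_beq_eq_true h)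

theorem ev_hom (D : A →+ A) (χ : ℕ) {ys : List A} (h : ∀ y ∈ ys, D y = χ • y) (z : ℕ) :
    D (ev ys z) = χ • ev ys z := by
  induction ys generalizing z with
  | nil => simp [ev]
  | cons y ys ih =>
    simp only [ev, map_add, map_nsmul, smul_add]
    rw [h y (by simp), ih fun y hy => h y (by simp [hy]), smul_comm]

theorem ev_kill (c : ℕ) {ys : List A} (h : ∀ y ∈ ys, c • y = 0) (z : ℕ) : c • ev ys z = 0 := by
  induction ys generalizing z with
  | nil => simp [ev]
  | cons y ys ih =>
    simp only [ev, smul_add]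
    rw [smul_comm, h y (by simp), ih fun y hy => h y (by simp [hy])]
    simp

theorem ev_of_zero {P : Par} {ys : List A} (hP : P.m14 = 16383 * ones ys.length)
    (h : ∀ y ∈ ys, (127 : ℕ) • y = 0) {s : ℕ} (hs : zero P s = true) : ev ys s = 0 := by
  simp only [zero, Bool.and_eq_true, hP] at hs
  have h1 : s % 127 = 0 := Nat.eq_of_beq_eq_true hs.1
  have h2 : Bd ys.length 16383 (s / 127) := Bd_of_msk (by norm_num) hs.2
  have e : s = 127 * (s / 127) := by omega
  rw [e, (Bd.smul ys h2 127 (by norm_num)).2, ev_kill 127 h]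

theorem pow_unit (ys : List A) (i : ℕ) (hi : i < ys.length) :
    Bd ys.length 1 (2 ^ (21 * i)) ∧ ev ys (2 ^ (21 * i)) = ys[i] := by
  induction ys generalizing i with
  | nil => simp at hi
  | cons y ys ih =>
    cases i with
    | zero => exact ⟨⟨by norm_num, Bd_zero _ _⟩, by simp [ev, ev_zero]⟩
    | succ i =>
      have e : 2 ^ (21 * (i + 1)) = 2097152 * 2 ^ (21 * i) := by ring
      have e1 : 2 ^ (21 * (i + 1)) % 2097152 = 0 := by rw [e]; omega
      have e2 : 2 ^ (21 * (i + 1)) / 2097152 = 2 ^ (21 * i) := by rw [e]; omega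
      obtain ⟨i1, i2⟩ := ih i (by simpa using hi)
      refine ⟨⟨by omega, by rw [e2]; exact i1⟩, ?_⟩
      simp only [ev]
      rw [e1, e2, i2]
      simp

theorem unit_lt (ys : List A) {i : ℕ} (hi : i < ys.length) :
    Bd ys.length 1 (unit ys.length i) ∧ ev ys (unit ys.length i) = ys[i] := by
  have : Nat.blt i ys.length = true := by simpa using hi
  simp only [unit, this, cond_true]
  exact pow_unit ys i hi

theorem unit_ge {n i : ℕ} (hi : n ≤ i) : unit n i = 0 := by
  have : Nat.blt i n = false := Bool.eq_false_iff.2 fun e => by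
    have : i < n := by simpa using e
    omega
  simp only [unit, this, cond_false]

theorem kill126 {x : A} (h : (127 : ℕ) • x = 0) (h' : (126 : ℕ) • x = 0) : x = 0 := by
  rw [show (127 : ℕ) = 126 + 1 from rfl, succ_nsmul, h', zero_add] at h
  exact h

theorem comb_spec (ys : List A) (L : List ℕ) (hL : ∀ z ∈ L, Bd ys.length 127 z ∧ ev ys z = 0) :
    ∀ c s m, Bd ys.length m s → m + 16129 * L.length < 2097152 →
      ev ys (comb L c s) = ev ys s := by
  induction L with
  | nil => intro c s m _ _; rfl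
  | cons z L ih =>
    intro c s m hs hm
    rw [List.length_cons] at hm
    obtain ⟨h1, h2⟩ := hL z (by simp)
    have hc : c % 128 ≤ 127 := by omega
    have hc' : c % 128 * 127 ≤ 16129 := by omega
    obtain ⟨k1, k2⟩ := Bd.smul ys h1 (c % 128) (by omega)
    have k1' : Bd ys.length 16129 (c % 128 * z) := k1.mono hc'
    have hm' : m + 16129 + 16129 * L.length < 2097152 := by linarith
    have hm'' : m + 16129 < 2097152 := lt_of_le_of_lt (Nat.le_add_right _ _) hm'
    obtain ⟨j1, j2⟩ := Bd.add ys hs k1' hm''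
    change ev ys (comb L (c / 128) (s + c % 128 * z)) = _
    rw [ih (fun z hz => hL z (by simp [hz])) _ _ _ j1 hm', j2, k2, h2, smul_zero, add_zero]

theorem combOK_spec {P : Par} {ys : List A} (hn : P.n = ys.length)
    (hP : P.m14 = 16383 * ones ys.length) (h : ∀ y ∈ ys, (127 : ℕ) • y = 0) (L : List ℕ)
    (hL : ∀ z ∈ L, Bd ys.length 127 z ∧ ev ys z = 0) (hl : L.length ≤ 120) (C : List ℕ) :
    ∀ i, combOK P L C i = true → ∀ j, i ≤ j → (hj : j < ys.length) → ys[j] = 0 := by
  induction C with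
  | nil =>
    intro i hi j hij hj
    have : i = P.n := Nat.eq_of_beq_eq_true hi
    omega
  | cons c C ih =>
    intro i hi j hij hj
    change (zero P (comb L c (126 * unit P.n i)) && combOK P L C (i + 1)) = true at hi
    rw [Bool.and_eq_true] at hi
    rcases Nat.eq_or_lt_of_le hij with rfl | hlt
    · obtain ⟨u1, u2⟩ := unit_lt ys hj
      obtain ⟨k1, k2⟩ := Bd.smul ys u1 126 (by norm_num)
      have h0 := ev_of_zero hP h hi.1
      rw [hn, comb_spec ys L hL c _ _ k1 (by omega), k2, u2] at h0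
      exact kill126 (h _ (List.getElem_mem hj)) h0
    · exact ih (i + 1) hi.2 j hlt hj

end Pool.Agent.MP_00906f_gt.H46C
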