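import Pool.Agent.MP_00906f_gt.H46C.Spec

/-! The keys of the checker determine the planes. -/

set_option exponentiation.threshold 2000

namespace Pool.Agent.MP_00906f_gt.H46C

theorem cases12 (l : ℕ) : l = 0 ∨ l = 1 ∨ l = 2 ∨ l = 3 ∨ l = 4 ∨ l = 5 ∨ l = 6 ∨ l = 7 ∨ l = 8 ∨
    l = 9 ∨ l = 10 ∨ l = 11 ∨ ∃ k, l = k + 12 := by
  by_cases h : 12 ≤ l
  · have : ∃ k, l = k + 12 := ⟨l - 12, by omega⟩
    tauto
  · omega

theorem dot_step (l : ℕ) (u x : V) : dot (step l u) x = dot u (tv l x) := by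
  obtain ⟨a0, a1, a2, a3, a4, a5⟩ := u
  rcases cases12 l with rfl | rfl | rfl | rfl | rfl | rfl | rfl | rfl | rfl | rfl | rfl | rfl |
    ⟨k, rfl⟩ <;>
  simp only [dot, step, tv, Int.add_def, Int.sub_eq_add_neg, Int.sub] <;> ring

theorem run_cons (l : ℕ) (w : List ℕ) (u : V) : run (l :: w) u = run w (step l u) := rfl

theorem runA_cons (l : ℕ) (w : List ℕ) (u : V) : runA (l :: w) u = runA w (stepA l u) := rfl

theorem act_cons (l : ℕ) (w : List ℕ) (x : V) : act (l :: w) x = tv l (act w x) := rfl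

theorem act_append (w w' : List ℕ) (x : V) : act (w ++ w') x = act w (act w' x) := by
  simp only [act, List.foldr_append]

theorem dot_run (w : List ℕ) (u x : V) : dot (run w u) x = dot u (act w x) := by
  induction w generalizing u with
  | nil => rfl
  | cons l w ih => rw [run_cons, ih, dot_step, act_cons]

def Le (u m : V) : Prop :=
  |u.a0| ≤ m.a0 ∧ |u.a1| ≤ m.a1 ∧ |u.a2| ≤ m.a2 ∧ |u.a3| ≤ m.a3 ∧ |u.a4| ≤ m.a4 ∧ |u.a5| ≤ m.a5

instance (u m : V) : Decidable (Le u m) := by unfold Le; infer_instance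

theorem ndiv (a b : ℕ) : Nat.div a b = a / b := rfl

theorem nmod (a b : ℕ) : Nat.mod a b = a % b := rfl

theorem isub (a b : ℤ) : Int.sub a b = a - b := rfl

theorem le_step (l : ℕ) {u m : V} (h : Le u m) : Le (step l u) (stepA l m) := by
  obtain ⟨a0, a1, a2, a3, a4, a5⟩ := u
  obtain ⟨m0, m1, m2, m3, m4, m5⟩ := m
  simp only [Le, abs_le] at h
  rcases cases12 l with rfl | rfl | rfl | rfl | rfl | rfl | rfl | rfl | rfl | rfl | rfl | rfl |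
    ⟨k, rfl⟩
  rotate_right
  · have e : Nat.div (k + 12) 2 = k / 2 + 6 := by
      change (k + 12) / 2 = _
      omega
    simp only [Le, abs_le, step, stepA, e]
    exact h
  all_goals
    simp only [Le, abs_le, step, stepA, ndiv, Nat.reduceDiv, Int.add_def, isub]
    omega

theorem le_run (w : List ℕ) {u m : V} (h : Le u m) : Le (run w u) (runA w m) := by
  induction w generalizing u m with
  | nil => exact h
  | cons l w ih => exact ih (le_step l h)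

def one : V := ⟨1, 1, 1, 1, 1, 1⟩

def two : V := ⟨2, 2, 2, 2, 2, 2⟩

def Bnd (x : V) : Prop := Le x ⟨65536, 65536, 65536, 65536, 65536, 65536⟩

theorem abs_mul_two {a b m : ℤ} (h : |a| ≤ m) (h' : |b| ≤ 2) : |a * b| ≤ 2 * m := by
  rw [abs_mul, mul_comm]
  exact mul_le_mul h' h (abs_nonneg _) (by norm_num)

theorem dot_le {w : List ℕ} (hw : small w = true) {u x : V} (hu : Le u one) (hx : Le x two) :
    |dot u (act w x)| ≤ 65536 := by
  rw [← dot_run]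
  have h := le_run w hu
  simp only [small] at hw
  change Le _ (runA w ⟨1, 1, 1, 1, 1, 1⟩) at h
  generalize runA w ⟨1, 1, 1, 1, 1, 1⟩ = m at h hw
  obtain ⟨m0, m1, m2, m3, m4, m5⟩ := m
  simp only [Nat.ble_eq, Int.add_def] at hw
  obtain ⟨h0, h1, h2, h3, h4, h5⟩ := h
  obtain ⟨k0, k1, k2, k3, k4, k5⟩ := hx
  have := abs_mul_two h0 k0
  have := abs_mul_two h1 k1
  have := abs_mul_two h2 k2
  have := abs_mul_two h3 k3
  have := abs_mul_two h4 k4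
  have := abs_mul_two h5 k5
  simp only [dot, abs_le] at *
  omega

theorem le_dp : ∀ k < 7, Le (run (dp k) ⟨1, 0, 0, 0, 0, 0⟩) one ∧ Le (run (dp k) ⟨0, 1, 0, 0, 0, 0⟩) one ∧
    Le (run (dp k) ⟨0, 0, 1, 0, 0, 0⟩) one ∧ Le (run (dp k) ⟨0, 0, 0, 1, 0, 0⟩) one ∧
    Le (run (dp k) ⟨0, 0, 0, 0, 1, 0⟩) one ∧ Le (run (dp k) ⟨0, 0, 0, 0, 0, 1⟩) one := by
  decide +kernel

theorem bnd_act {w : List ℕ} (hw : small w = true) {x : V} (hx : Le x two) {k : ℕ} (hk : k < 7) :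
    Bnd (act (dp k) (act w x)) := by
  obtain ⟨h0, h1, h2, h3, h4, h5⟩ := le_dp k hk
  have e0 := dot_le hw h0 hx
  have e1 := dot_le hw h1 hx
  have e2 := dot_le hw h2 hx
  have e3 := dot_le hw h3 hx
  have e4 := dot_le hw h4 hx
  have e5 := dot_le hw h5 hx
  rw [dot_run] at e0 e1 e2 e3 e4 e5
  simp only [dot, one_mul, zero_mul, add_zero, zero_add] at e0 e1 e2 e3 e4 e5
  exact ⟨e0, e1, e2, e3, e4, e5⟩

theorem act_dinv (x : V) : act dinv x =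
    ⟨x.a0 + x.a1, x.a2 - x.a0, x.a0 + x.a3, x.a4 - x.a0, x.a0 + x.a5, -x.a0⟩ := by
  simp only [act, dinv, List.foldr, tv, V.mk.injEq]
  refine ⟨trivial, ?_, ?_, ?_, ?_, ?_⟩ <;> ring

theorem pk_dot (n : ℕ) (x : V) : pk n x = dot (uu n) x := by
  induction n generalizing x with
  | zero => simp [pk, dot, uu]
  | succ n ih =>
    simp only [dot, uu, pk]
    simp only [ih]
    generalize uu n = u
    generalize (2 : ℤ) ^ 577 = S
    simp only [act_dinv, dot, phi, psi]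
    ring

theorem dp_succ (k : ℕ) : dp (k + 1) = dinv ++ dp k := by
  induction k with
  | zero => rfl
  | succ k ih =>
    change dp (k + 1) ++ dinv = dinv ++ (dp k ++ dinv)
    rw [ih, List.append_assoc]

theorem phi_bd {x : V} (h : Bnd x) : |phi x| < 2 ^ 576 ∧ |psi x| < 2 ^ 576 := by
  simp only [Bnd, Le, abs_le] at h
  simp only [phi, psi, abs_lt]
  norm_num
  omega

theorem pko_nonneg (n : ℕ) (x : V) (h : ∀ k < n, Bnd (act (dp k) x)) : 0 ≤ pk n x + off n := by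
  induction n generalizing x with
  | zero => simp [pk, off]
  | succ n ih =>
    have h0 := phi_bd (h 0 (by omega))
    have h1 := ih (act dinv x) fun k hk => by
      rw [← act_append]; exact h (k + 1) (by omega)
    change |phi x| < _ ∧ |psi x| < _ at h0
    simp only [pk, off, abs_lt] at h0 ⊢
    norm_num at h0 ⊢
    omega

theorem pko_div (k : ℕ) : ∀ (n : ℕ) (x : V), (∀ j < n, Bnd (act (dp j) x)) → k ≤ n →
    (pk n x + off n) / 2 ^ (1154 * k) = pk (n - k) (act (dp k) x) + off (n - k) := by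
  induction k with
  | zero => intro n x _ _; simp [dp, act]
  | succ k ih =>
    intro n x h hk
    obtain ⟨n, rfl⟩ : ∃ m, n = m + 1 := ⟨n - 1, by omega⟩
    have h0 := phi_bd (h 0 (by omega))
    change |phi x| < _ ∧ |psi x| < _ at h0
    have e : (pk (n + 1) x + off (n + 1)) / 2 ^ 1154 = pk n (act dinv x) + off n := by
      simp only [pk, off, abs_lt] at h0 ⊢
      norm_num at h0 ⊢
      omega
    rw [show 1154 * (k + 1) = 1154 + 1154 * k by ring, pow_add,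
      ← Int.ediv_ediv_of_nonneg (by positivity), e,
      ih n (act dinv x) (fun j hj => by rw [← act_append]; exact h (j + 1) (by omega)) (by omega),
      ← act_append, Nat.add_sub_add_right]
    rfl

theorem ext_spec {k : ℕ} (hk : k < 7) {x : V} (h : ∀ j < 7, Bnd (act (dp j) x)) :
    ((ext k (dot u0 x) % XX : ℕ) : ℤ) ≡ phi (act (dp k) x) [ZMOD (2 ^ 576)] ∧
    ((Nat.shiftRight (ext k (dot u0 x)) 577 % XX : ℕ) : ℤ) ≡ psi (act (dp k) x) [ZMOD (2 ^ 576)] := by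
  have e : (ext k (dot u0 x) : ℤ) = pk (7 - k) (act (dp k) x) + off (7 - k) := by
    rw [← pko_div k 7 x h hk.le]
    have h0 := pko_nonneg 7 x h
    simp only [ext, Nat.shiftRight_eq, Nat.shiftRight_eq_div_pow, Nat.mul_eq, Int.add_def, u0, off7,
      ← pk_dot]
    push_cast
    rw [Int.toNat_of_nonneg h0]
  obtain ⟨n, hn⟩ : ∃ n, 7 - k = n + 1 := ⟨6 - k, by omega⟩
  have h0 := phi_bd (h k hk)
  rw [hn] at e
  simp only [Nat.shiftRight_eq, Nat.shiftRight_eq_div_pow, XX, Nat.pow_eq]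
  push_cast
  rw [e]
  simp only [pk, off, abs_lt, Int.ModEq] at h0 ⊢
  generalize phi _ = a at *
  generalize psi _ = b at *
  generalize pk n _ = c at *
  generalize off n = d at *
  norm_num at h0 ⊢
  omega

def kI (a b : V) : ℤ := phi a * psi b - phi b * psi a

/-- `κ` is the key of the plane of the word `w`. -/
def KeyOf (tag : ℕ) (w : List ℕ) (κ : ℕ) : Prop :=
  tag < 2 ∧ Bnd (act w (p1 tag)) ∧ Bnd (act w (p2 tag)) ∧
    ∃ q : ℕ, κ = 2 * q + tag ∧ (q : ℤ) ≡ kI (act w (p1 tag)) (act w (p2 tag)) [ZMOD (2 ^ 576)]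

theorem key2_spec (tag a b : ℕ) {pa qa pb qb : ℤ} (h1 : ((a % XX : ℕ) : ℤ) ≡ pa [ZMOD (2 ^ 576)])
    (h2 : ((Nat.shiftRight a 577 % XX : ℕ) : ℤ) ≡ qa [ZMOD (2 ^ 576)])
    (h3 : ((b % XX : ℕ) : ℤ) ≡ pb [ZMOD (2 ^ 576)])
    (h4 : ((Nat.shiftRight b 577 % XX : ℕ) : ℤ) ≡ qb [ZMOD (2 ^ 576)]) :
    ∃ q : ℕ, key2 tag a b = 2 * q + tag ∧ (q : ℤ) ≡ pa * qb - pb * qa [ZMOD (2 ^ 576)] := by
  have hX : (XX : ℤ) = 2 ^ 576 := by simp only [XX, Nat.pow_eq]; push_cast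
  have hp : 0 < XX := Nat.pow_pos (by norm_num)
  have hb : b % XX ≤ XX := (Nat.mod_lt _ hp).le
  refine ⟨_, rfl, ?_⟩
  simp only [nmod, Nat.add_eq, Nat.mul_eq, Nat.sub_eq]
  generalize a % XX = a1 at *
  generalize Nat.shiftRight a 577 % XX = a2 at *
  generalize Nat.shiftRight b 577 % XX = b2 at *
  generalize b % XX = b1 at *
  rw [Int.natCast_mod, Nat.cast_add, Nat.cast_mul, Nat.cast_mul, Nat.cast_sub hb, hX]
  generalize (2 : ℤ) ^ 576 = X at *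
  refine (Int.mod_modEq _ _).trans ?_
  have h5 : X - b1 ≡ 0 - pb [ZMOD X] := Int.ModEq.sub (Int.modEq_zero_iff_dvd.2 dvd_rfl) h3
  have := (h1.mul h4).add (h5.mul h2)
  rwa [show pa * qb + (0 - pb) * qa = pa * qb - pb * qa by ring] at this

theorem key_spec {tag k : ℕ} (ht : tag < 2) (hk : k < 7) {w w' : List ℕ} (hw : small w = true)
    (h1 : Le (act w' (p1 tag)) two) (h2 : Le (act w' (p2 tag)) two) :
    KeyOf tag (dp k ++ (w ++ w'))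
      (key tag k (dot (run w u0) (act w' (p1 tag))) (dot (run w u0) (act w' (p2 tag)))) := by
  refine ⟨ht, ?_, ?_, ?_⟩
  · rw [act_append, act_append]; exact bnd_act hw h1 hk
  · rw [act_append, act_append]; exact bnd_act hw h2 hk
  · simp only [act_append, dot_run]
    have e1 := ext_spec hk fun j hj => bnd_act hw h1 hj
    have e2 := ext_spec hk fun j hj => bnd_act hw h2 hj
    exact key2_spec tag _ _ e1.1 e1.2 e2.1 e2.2

theorem dig {X : ℤ} (n : ℕ) {c r : ℤ} (hc : |c| < X) (h : X ^ (n + 1) ∣ c + X * r) :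
    c = 0 ∧ X ^ n ∣ r := by
  have h1 : X ∣ c := (dvd_add_left (dvd_mul_right _ _)).1 ((dvd_pow_self _ (by omega)).trans h)
  have h0 : c = 0 := Int.eq_zero_of_abs_lt_dvd h1 hc
  rw [h0, zero_add, pow_succ'] at h
  rw [h0, abs_zero] at hc
  exact ⟨h0, (mul_dvd_mul_iff_left hc.ne').1 h⟩

theorem dig16 {X c0 c1 c2 c3 c4 c5 c6 c7 c8 c9 c10 c11 c12 c13 c14 c15 : ℤ} (h0 : |c0| < X)
    (h1 : |c1| < X) (h2 : |c2| < X) (h3 : |c3| < X) (h4 : |c4| < X) (h5 : |c5| < X) (h6 : |c6| < X)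
    (h7 : |c7| < X) (h8 : |c8| < X) (h9 : |c9| < X) (h10 : |c10| < X) (h11 : |c11| < X)
    (h12 : |c12| < X) (h13 : |c13| < X) (h14 : |c14| < X) (h15 : |c15| < X)
    (hd : X ^ 16 ∣ c0 + X * (c1 + X * (c2 + X * (c3 + X * (c4 + X * (c5 + X * (c6 + X * (c7 +
      X * (c8 + X * (c9 + X * (c10 + X * (c11 + X * (c12 + X * (c13 + X * (c14 + X * (c15 +
      X * 0)))))))))))))))) :
    c0 = 0 ∧ c2 = 0 ∧ c3 = 0 ∧ c4 = 0 ∧ c5 = 0 ∧ c6 = 0 ∧ c7 = 0 ∧ c8 = 0 ∧ c9 = 0 ∧ c10 = 0 ∧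
      c11 = 0 ∧ c12 = 0 ∧ c13 = 0 ∧ c14 = 0 ∧ c15 = 0 := by
  obtain ⟨z0, hd⟩ := dig 15 h0 hd
  obtain ⟨-, hd⟩ := dig 14 h1 hd
  obtain ⟨z2, hd⟩ := dig 13 h2 hd
  obtain ⟨z3, hd⟩ := dig 12 h3 hd
  obtain ⟨z4, hd⟩ := dig 11 h4 hd
  obtain ⟨z5, hd⟩ := dig 10 h5 hd
  obtain ⟨z6, hd⟩ := dig 9 h6 hd
  obtain ⟨z7, hd⟩ := dig 8 h7 hd
  obtain ⟨z8, hd⟩ := dig 7 h8 hd
  obtain ⟨z9, hd⟩ := dig 6 h9 hd
  obtain ⟨z10, hd⟩ := dig 5 h10 hd
  obtain ⟨z11, hd⟩ := dig 4 h11 hd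
  obtain ⟨z12, hd⟩ := dig 3 h12 hd
  obtain ⟨z13, hd⟩ := dig 2 h13 hd
  obtain ⟨z14, hd⟩ := dig 1 h14 hd
  obtain ⟨z15, -⟩ := dig 0 h15 hd
  exact ⟨z0, z2, z3, z4, z5, z6, z7, z8, z9, z10, z11, z12, z13, z14, z15⟩

theorem mul_bd {a b : ℤ} (h : |a| ≤ 65536) (h' : |b| ≤ 65536) :
    -4294967296 ≤ a * b ∧ a * b ≤ 4294967296 := by
  rw [← abs_le, abs_mul]
  exact (mul_le_mul h h' (abs_nonneg _) (by norm_num)).trans (by norm_num)

theorem mn_bd {a b c d a' b' c' d' : ℤ} (h1 : |a| ≤ 65536) (h2 : |b| ≤ 65536) (h3 : |c| ≤ 65536)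
    (h4 : |d| ≤ 65536) (k1 : |a'| ≤ 65536) (k2 : |b'| ≤ 65536) (k3 : |c'| ≤ 65536)
    (k4 : |d'| ≤ 65536) : ∃ n : ℤ, -17179869184 ≤ n ∧ n ≤ 17179869184 ∧
      a * b - c * d = a' * b' - c' * d' + n := by
  have := mul_bd h1 h2
  have := mul_bd h3 h4
  have := mul_bd k1 k2
  have := mul_bd k3 k4
  exact ⟨a * b - c * d - (a' * b' - c' * d'), by omega, by omega, by ring⟩

theorem same_of {a b a' b' : V} (ha : Bnd a) (hb : Bnd b) (ha' : Bnd a') (hb' : Bnd b')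
    (h : kI a b ≡ kI a' b' [ZMOD (2 ^ 576)]) : Same a b a' b' := by
  obtain ⟨a0, a1, a2, a3, a4, a5⟩ := ha
  obtain ⟨b0, b1, b2, b3, b4, b5⟩ := hb
  obtain ⟨c0, c1, c2, c3, c4, c5⟩ := ha'
  obtain ⟨d0, d1, d2, d3, d4, d5⟩ := hb'
  obtain ⟨n01, l01, u01, e01⟩ := mn_bd a0 b1 a1 b0 c0 d1 c1 d0
  obtain ⟨n02, l02, u02, e02⟩ := mn_bd a0 b2 a2 b0 c0 d2 c2 d0
  obtain ⟨n03, l03, u03, e03⟩ := mn_bd a0 b3 a3 b0 c0 d3 c3 d0
  obtain ⟨n04, l04, u04, e04⟩ := mn_bd a0 b4 a4 b0 c0 d4 c4 d0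
  obtain ⟨n05, l05, u05, e05⟩ := mn_bd a0 b5 a5 b0 c0 d5 c5 d0
  obtain ⟨n12, l12, u12, e12⟩ := mn_bd a1 b2 a2 b1 c1 d2 c2 d1
  obtain ⟨n13, l13, u13, e13⟩ := mn_bd a1 b3 a3 b1 c1 d3 c3 d1
  obtain ⟨n14, l14, u14, e14⟩ := mn_bd a1 b4 a4 b1 c1 d4 c4 d1
  obtain ⟨n15, l15, u15, e15⟩ := mn_bd a1 b5 a5 b1 c1 d5 c5 d1
  obtain ⟨n23, l23, u23, e23⟩ := mn_bd a2 b3 a3 b2 c2 d3 c3 d2
  obtain ⟨n24, l24, u24, e24⟩ := mn_bd a2 b4 a4 b2 c2 d4 c4 d2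
  obtain ⟨n25, l25, u25, e25⟩ := mn_bd a2 b5 a5 b2 c2 d5 c5 d2
  obtain ⟨n34, l34, u34, e34⟩ := mn_bd a3 b4 a4 b3 c3 d4 c4 d3
  obtain ⟨n35, l35, u35, e35⟩ := mn_bd a3 b5 a5 b3 c3 d5 c5 d3
  obtain ⟨n45, l45, u45, e45⟩ := mn_bd a4 b5 a5 b4 c4 d5 c5 d4
  have hd := h.symm.dvd
  have e : kI a b - kI a' b' = n01 + 2 ^ 36 * (0 + 2 ^ 36 * ((n02 - n12) + 2 ^ 36 * ((n12 - n13) +
      2 ^ 36 * ((n03 - n14) + 2 ^ 36 * ((n13 - n23) + 2 ^ 36 * ((n23 - n24) + 2 ^ 36 * (n04 +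
      2 ^ 36 * ((n14 - n34) + 2 ^ 36 * (n24 + 2 ^ 36 * (n34 + 2 ^ 36 * (n05 + 2 ^ 36 * (n15 +
      2 ^ 36 * (n25 + 2 ^ 36 * (n35 + 2 ^ 36 * (n45 + 2 ^ 36 * 0))))))))))))))) := by
    simp only [kI, phi, psi]
    linear_combination e01 + 2 ^ 72 * (e02 - e12) + 2 ^ 108 * (e12 - e13) + 2 ^ 144 * (e03 - e14) +
      2 ^ 180 * (e13 - e23) + 2 ^ 216 * (e23 - e24) + 2 ^ 252 * e04 + 2 ^ 288 * (e14 - e34) +
      2 ^ 324 * e24 + 2 ^ 360 * e34 + 2 ^ 396 * e05 + 2 ^ 432 * e15 + 2 ^ 468 * e25 +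
      2 ^ 504 * e35 + 2 ^ 540 * e45
  have hX : (2 : ℤ) ^ 576 = (2 ^ 36) ^ 16 := by rw [← pow_mul]
  have B : ∀ x : ℤ, -34359738368 ≤ x → x ≤ 34359738368 → |x| < 2 ^ 36 := fun x h1 h2 => by
    rw [abs_lt]; norm_num; omega
  rw [e, hX] at hd
  clear e h hX a0 a1 a2 a3 a4 a5 b0 b1 b2 b3 b4 b5 c0 c1 c2 c3 c4 c5 d0 d1 d2 d3 d4 d5
  generalize (2 : ℤ) ^ 36 = X at hd B
  obtain ⟨z0, z2, z3, z4, z5, z6, z7, z8, z9, z10, z11, z12, z13, z14, z15⟩ :=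
    dig16 (B _ (by omega) (by omega)) (B _ (by omega) (by omega)) (B _ (by omega) (by omega))
    (B _ (by omega) (by omega)) (B _ (by omega) (by omega)) (B _ (by omega) (by omega))
    (B _ (by omega) (by omega)) (B _ (by omega) (by omega)) (B _ (by omega) (by omega))
    (B _ (by omega) (by omega)) (B _ (by omega) (by omega)) (B _ (by omega) (by omega))
    (B _ (by omega) (by omega)) (B _ (by omega) (by omega)) (B _ (by omega) (by omega))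
    (B _ (by omega) (by omega)) hd
  have y23 : n23 = 0 := by omega
  have y14 : n14 = 0 := by omega
  have y13 : n13 = 0 := by omega
  have y03 : n03 = 0 := by omega
  have y12 : n12 = 0 := by omega
  have y02 : n02 = 0 := by omega
  subst z0 z7 z9 z10 z11 z12 z13 z14 z15 y23 y14 y13 y03 y12 y02
  rw [add_zero] at e01 e02 e03 e04 e05 e12 e13 e14 e15 e23 e24 e25 e34 e35 e45
  intro i j hij hj
  interval_cases j <;> interval_cases i
  exacts [e01, e02, e12, e03, e13, e23, e04, e14, e24, e34, e05, e15, e25, e35, e45]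

theorem key_inj {tag tag' : ℕ} {w w' : List ℕ} {κ : ℕ} (h : KeyOf tag w κ) (h' : KeyOf tag' w' κ) :
    tag' = tag ∧ tag < 2 ∧
      Same (act w (p1 tag)) (act w (p2 tag)) (act w' (p1 tag)) (act w' (p2 tag)) := by
  obtain ⟨h1, h2, h3, q, h4, h5⟩ := h
  obtain ⟨k1, k2, k3, q', k4, k5⟩ := h'
  obtain rfl : tag' = tag := by omega
  obtain rfl : q' = q := by omega
  exact ⟨rfl, h1, same_of h2 h3 k2 k3 (h5.symm.trans k5)⟩

/-- The computed terms are those of the relation. -/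
def TmOK (u : V) (t : Tm) (s : ℕ × Bool × List ℕ) : Prop :=
  t.tag = s.1 ∧ t.sg = s.2.1 ∧ s.1 < 2 ∧ Le (act s.2.2 (p1 s.1)) two ∧ Le (act s.2.2 (p2 s.1)) two ∧
    t.A = dot u (act s.2.2 (p1 s.1)) ∧ t.B = dot u (act s.2.2 (p2 s.1))

theorem terms_ok (u : V) : List.Forall₂ (TmOK u) (terms u) tspec := by
  obtain ⟨a0, a1, a2, a3, a4, a5⟩ := u
  simp only [terms, tspec, List.forall₂_cons, List.Forall₂.nil, and_true, TmOK, true_and]
  refine ⟨⟨?_, ?_, ?_, ?_, ?_⟩, ⟨?_, ?_, ?_, ?_, ?_⟩, ⟨?_, ?_, ?_, ?_, ?_⟩, ⟨?_, ?_, ?_, ?_, ?_⟩,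
    ⟨?_, ?_, ?_, ?_, ?_⟩, ⟨?_, ?_, ?_, ?_, ?_⟩, ⟨?_, ?_, ?_, ?_, ?_⟩, ⟨?_, ?_, ?_, ?_, ?_⟩,
    ⟨?_, ?_, ?_, ?_, ?_⟩, ⟨?_, ?_, ?_, ?_, ?_⟩, ⟨?_, ?_, ?_, ?_, ?_⟩, ⟨?_, ?_, ?_, ?_, ?_⟩⟩
  all_goals first
    | decide
    | (simp [dot, act, tv, p1, p2, wy0, wy1, wy2, wg0, Int.add_def, isub] <;> ring)

theorem vAB {tag : ℕ} (u : V) : vA tag u = dot u (act [] (p1 tag)) ∧
    vB tag u = dot u (act [] (p2 tag)) := by
  by_cases h : tag = 0
  · subst h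
    simp [vA, vB, dot, act, p1, p2]
  · have : Nat.beq tag 0 = false := Bool.eq_false_iff.2 fun e => h (Nat.eq_of_beq_eq_true e)
    simp [vA, vB, dot, act, p1, p2, h, this, Int.add_def]

theorem wkey_spec {tag k : ℕ} (ht : tag < 2) (hk : k < 7) {w : List ℕ} (hw : small w = true) :
    KeyOf tag (dp k ++ w) (wkey tag k w) := by
  have h := key_spec ht hk (w' := []) hw (by interval_cases tag <;> decide)
    (by interval_cases tag <;> decide)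
  rw [List.append_nil] at h
  rw [wkey, (vAB _).1, (vAB _).2]
  exact h

end Pool.Agent.MP_00906f_gt.H46C
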