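import Pool.Agent.MP_00906f_gt.H46C.Data

/-! Kernel checks of the certificate. -/

namespace Pool.Agent.MP_00906f_gt.H46C

set_option maxRecDepth 100000

theorem tree4 : treeOK PP TT 4 TT = true := by decide +kernel

theorem tree5 : treeOK PP TT 5 TT = true := by decide +kernel

theorem tree6 : treeOK PP TT 6 TT = true := by decide +kernel

theorem tree7 : treeOK PP TT 7 TT = true := by decide +kernel

end Pool.Agent.MP_00906f_gt.H46C
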