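import Pool.Agent.MP_00906f_gt.H46C.Data

/-! Kernel checks of the certificate. -/

namespace Pool.Agent.MP_00906f_gt.H46C

set_option maxRecDepth 100000

theorem tree8 : treeOK PP TT 8 TT = true := by decide +kernel

theorem tree9 : treeOK PP TT 9 TT = true := by decide +kernel

theorem tree10 : treeOK PP TT 10 TT = true := by decide +kernel

theorem tree11 : treeOK PP TT 11 TT = true := by decide +kernel

end Pool.Agent.MP_00906f_gt.H46C
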