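import Pool.Agent.MP_00906f_gt.H46C.Data

/-! Kernel checks of the certificate. -/

namespace Pool.Agent.MP_00906f_gt.H46C

set_option maxRecDepth 100000

theorem tree12 : treeOK PP TT 12 TT = true := by decide +kernel

theorem tree13 : treeOK PP TT 13 TT = true := by decide +kernel

theorem tree14 : treeOK PP TT 14 TT = true := by decide +kernel

theorem tree15 : treeOK PP TT 15 TT = true := by decide +kernel

end Pool.Agent.MP_00906f_gt.H46C
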