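import Pool.Agent.MP_00906f_gt.H46C.Data

/-! Kernel checks of the certificate. -/

namespace Pool.Agent.MP_00906f_gt.H46C

set_option maxRecDepth 100000

theorem left_ok : allB (leftOK PP TT) left = true := by decide +kernel

theorem combT : combOK PP (left.map fun r => r.2.2.1) cT 0 = true := by decide +kernel

theorem combZ : combOK PP ((left.map fun r => r.2.2.2) ++ [unit 107 106]) cZ 0 = true := by
  decide +kernel

theorem tars_ok : tarsOK TT (b0 :: bas) tars = true := by decide +kernel

theorem tar3 : tarOK TT 0 0 [] = true := by decide +kernel

theorem tar5 : tarOK TT 1 0 [] = true := by decide +kernel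

theorem left_length : left.length = 109 := by decide +kernel

theorem seeds_length : seeds.length = 106 := by decide +kernel

end Pool.Agent.MP_00906f_gt.H46C
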