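import Pool.Agent.MP_00906f_gt.H46C.Sound
import Pool.Agent.MP_00906f_gt.H46C.K0
import Pool.Agent.MP_00906f_gt.H46C.K1
import Pool.Agent.MP_00906f_gt.H46C.K2
import Pool.Agent.MP_00906f_gt.H46C.K3
import Pool.Agent.MP_00906f_gt.H46C.K4

/-! The two runs of the certificate. -/

namespace Pool.Agent.MP_00906f_gt.H46C

theorem tree_ok : ∀ c < 16, treeOK PP TT c TT = true := by
  intro c hc
  interval_cases c
  exacts [tree0, tree1, tree2, tree3, tree4, tree5, tree6, tree7, tree8, tree9, tree10, tree11,
    tree12, tree13, tree14, tree15]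

variable {A : Type} [AddCommGroup A] {D : A →+ A} {f : ℕ → List ℕ → A}

/-- The values on the generators. -/
noncomputable def YS (f : ℕ → List ℕ → A) : List A :=
  (seeds ++ [b0]).map fun g => f g.1 (dec g.2)

theorem YS_length : (YS f).length = 107 := by
  simp only [YS, List.length_map, List.length_append, seeds_length, List.length_singleton]

theorem ctx (b : Bool) (H : Hyp D f) (h1 : ∀ g ∈ seeds ++ [b0], (127 : ℕ) • f g.1 (dec g.2) = 0)
    (h2 : ∀ g ∈ seeds ++ [b0], D (f g.1 (dec g.2)) = cond b 2 1 • f g.1 (dec g.2))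
    (h3 : ∀ g ∈ bas, f g.1 (dec g.2) = 0) : Ctx b PP D f (YS f) where
  hyp := H
  hn := YS_length.symm
  h7 := by rw [YS_length]; rfl
  h14 := by rw [YS_length]; rfl
  h127 := fun y hy => by
    obtain ⟨g, hg, rfl⟩ := List.mem_map.1 hy
    exact h1 g hg
  hD := fun y hy => by
    obtain ⟨g, hg, rfl⟩ := List.mem_map.1 hy
    exact h2 g hg
  gen := by
    have e : PP.gens = (seeds ++ [b0]) ++ bas := by
      rw [List.append_assoc]; rfl
    rw [e]
    exact gen_spec (fun g => f g.1 (dec g.2)) _ _ h3

theorem concl {b : Bool} (C : Ctx b PP D f (YS f)) {L c : List ℕ}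
    (hL : ∀ z ∈ L, Bd (YS f).length 127 z ∧ ev (YS f) z = 0) (hl : L.length ≤ 120)
    (hc : combOK PP L c 0 = true) : Concl f := by
  have h0 : ∀ y ∈ YS f, y = 0 := fun y hy => by
    obtain ⟨j, hj, rfl⟩ := List.getElem_of_mem hy
    exact combOK_spec C.hn C.h14 C.h127 L hL hl c 0 hc j (Nat.zero_le _) hj
  refine ⟨fun g hg => h0 _ (List.mem_map.2 ⟨g, hg, rfl⟩), fun g hg s hs => ?_,
    C.tar tree_ok h0 tar3, C.tar tree_ok h0 tar5⟩
  obtain ⟨k, hk⟩ := tarsOK_spec _ _ tars_ok g hg s hs
  exact C.tar tree_ok h0 hk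

theorem soundT : StmtT := by
  intro A _ D f H h1 h2 h3
  have C := ctx false H h1 (fun g hg => by rw [h2 g hg, cond_false, one_smul]) h3
  refine concl C (fun z hz => ?_) (by rw [List.length_map, left_length]; norm_num) combT
  obtain ⟨r, hr, rfl⟩ := List.mem_map.1 hz
  exact C.left tree_ok (allB_spec left_ok r hr)

theorem soundZ : StmtZ := by
  intro A _ D f H h1 h2 h3
  have hb := h3 b0 List.mem_cons_self
  have C := ctx true H (fun g hg => ?_) (fun g hg => ?_) fun g hg => h3 g (List.mem_cons_of_mem _ hg)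
  · refine concl C (fun z hz => ?_)
      (by rw [List.length_append, List.length_map, left_length]; norm_num) combZ
    rcases List.mem_append.1 hz with hz | hz
    · obtain ⟨r, hr, rfl⟩ := List.mem_map.1 hz
      exact C.left tree_ok (allB_spec left_ok r hr)
    · rw [List.mem_singleton.1 hz]
      have hj : 106 < (YS f).length := by rw [YS_length]; norm_num
      obtain ⟨u1, u2⟩ := unit_lt (YS f) hj
      have e : (YS f)[106] = f b0.1 (dec b0.2) := by
        simp only [YS, List.getElem_map]
        rw [List.getElem_append_right (by rw [seeds_length])]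
        simp
      rw [e, hb] at u2
      rw [← YS_length (f := f)]
      exact ⟨u1.mono (by norm_num), u2⟩
  · rcases List.mem_append.1 hg with hg | hg
    · exact h1 g hg
    · rw [List.mem_singleton.1 hg, hb, smul_zero]
  · rcases List.mem_append.1 hg with hg | hg
    · exact h2 g hg
    · rw [List.mem_singleton.1 hg, hb, smul_zero, map_zero]

end Pool.Agent.MP_00906f_gt.H46C
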