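import Pool.Agent.MP_00906f_gt.H46C.Geo
import Pool.Agent.MP_00906f_gt.H46C.Dig

/-! Soundness of the checker. -/

namespace Pool.Agent.MP_00906f_gt.H46C

def Mem (κ i zT zZ w h : ℕ) : Tr → Prop
  | .leaf => False
  | .node l κ' i' zT' zZ' w' h' r =>
    (κ = κ' ∧ i = i' ∧ zT = zT' ∧ zZ = zZ' ∧ w = w' ∧ h = h') ∨ Mem κ i zT zZ w h l ∨
      Mem κ i zT zZ w h r

theorem find_spec {T : Tr} {κ : ℕ} {k : ℕ → ℕ → ℕ → Bool} (h : find T κ k = true) :
    ∃ i zT zZ w h, Mem κ i zT zZ w h T ∧ k i zT zZ = true := by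
  induction T with
  | leaf => exact absurd h Bool.false_ne_true
  | node l ky i zT zZ w h' r ihl ihr =>
    change cond (Nat.ble κ ky) (cond (Nat.ble ky κ) (k i zT zZ) (find l κ k)) (find r κ k) = true at h
    cases h1 : Nat.ble κ ky
    · rw [h1] at h
      obtain ⟨a, b, c, d, e, h2, h3⟩ := ihr h
      exact ⟨a, b, c, d, e, Or.inr (Or.inr h2), h3⟩
    · cases h2 : Nat.ble ky κ
      · rw [h1, h2] at h
        obtain ⟨a, b, c, d, e, h2, h3⟩ := ihl h
        exact ⟨a, b, c, d, e, Or.inr (Or.inl h2), h3⟩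
      · rw [h1, h2] at h
        exact ⟨i, zT, zZ, w, h', Or.inl ⟨le_antisymm (Nat.le_of_ble_eq_true h1)
          (Nat.le_of_ble_eq_true h2), rfl, rfl, rfl, rfl, rfl⟩, h⟩

theorem treeOK_spec {P : Par} {T S : Tr} {κ i zT zZ w h : ℕ} (hc : treeOK P T (i % 16) S = true)
    (hm : Mem κ i zT zZ w h S) : entOK P T κ i zT zZ w h = true := by
  induction S with
  | leaf => exact hm.elim
  | node l κ' i' zT' zZ' w' h' r ihl ihr =>
    change (cond (Nat.beq (i' % 16) (i % 16)) (entOK P T κ' i' zT' zZ' w' h') true &&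
      treeOK P T (i % 16) l && treeOK P T (i % 16) r) = true at hc
    rw [Bool.and_eq_true, Bool.and_eq_true] at hc
    rcases hm with ⟨rfl, rfl, rfl, rfl, rfl, rfl⟩ | hm | hm
    · have := hc.1.1
      rwa [Nat.beq_refl] at this
    · exact ihl hc.1.2 hm
    · exact ihr hc.2 hm

theorem allB_spec {α : Type} {p : α → Bool} {L : List α} (h : allB p L = true) :
    ∀ a ∈ L, p a = true := by
  induction L with
  | nil => simp
  | cons a L ih =>
    change (p a && allB p L) = true at h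
    rw [Bool.and_eq_true] at h
    intro b hb
    rcases List.mem_cons.1 hb with rfl | hb
    exacts [h.1, ih h.2 b hb]

variable {A : Type} [AddCommGroup A]

theorem cf_spec (sg : Bool) {e : ℕ} (he : e < 7) :
    cf sg e ≤ 127 ∧ ∀ x : A, (127 : ℕ) • x = 0 → cf sg e • x = (cond sg 1 (-1) : ℤ) • (2 ^ e • x) := by
  have h : 2 ^ e ≤ 127 := by interval_cases e <;> norm_num
  cases sg
  · refine ⟨Nat.sub_le _ _, fun x hx => ?_⟩
    change (127 - 2 ^ e) • x = (-1 : ℤ) • _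
    rw [neg_smul, one_smul, eq_neg_iff_add_eq_zero, ← add_smul, Nat.sub_add_cancel h, hx]
  · exact ⟨h, fun x _ => by simp [cf]⟩

/-- The setting of one run. -/
structure Ctx (b : Bool) (P : Par) (D : A →+ A) (f : ℕ → List ℕ → A) (ys : List A) : Prop where
  hyp : Hyp D f
  hn : P.n = ys.length
  h7 : P.m7 = 127 * ones ys.length
  h14 : P.m14 = 16383 * ones ys.length
  h127 : ∀ y ∈ ys, (127 : ℕ) • y = 0
  hD : ∀ y ∈ ys, D y = cond b 2 1 • y
  gen : ∀ j, j < P.gens.length →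
    f (P.gens.getD j (0, 0)).1 (dec (P.gens.getD j (0, 0)).2) = ev ys (unit ys.length j)

def Good (f : ℕ → List ℕ → A) (ys : List A) (κ z : ℕ) : Prop :=
  Bd ys.length 127 z ∧ ∀ tag w, KeyOf tag w κ → f tag w = ev ys z

variable {b : Bool} {P : Par} {D : A →+ A} {f : ℕ → List ℕ → A} {ys : List A}

theorem Hyp.key (H : Hyp D f) {tag tag' : ℕ} {w w' : List ℕ} {κ : ℕ} (h : KeyOf tag w κ)
    (h' : KeyOf tag' w' κ) : f tag w = f tag' w' := by
  obtain ⟨rfl, h1, h2⟩ := key_inj h h'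
  exact H.pl _ _ _ h1 h2

theorem Hyp.exists_val (H : Hyp D f) (κ : ℕ) : ∃ x, ∀ tag w, KeyOf tag w κ → f tag w = x := by
  by_cases h : ∃ tag w, KeyOf tag w κ
  · obtain ⟨t, w, h⟩ := h
    exact ⟨f t w, fun _ _ h' => H.key h' h⟩
  · exact ⟨0, fun t w h' => absurd ⟨t, w, h'⟩ h⟩

theorem Ctx.shift (C : Ctx b P D f ys) (tag z : ℕ) (w : List ℕ) (k : ℕ) :
    ∀ c : ℕ, f tag (dp k ++ w) = c • ev ys z → f tag w = (2 ^ cond b k 0 * c) • ev ys z := by
  induction k with
  | zero => intro c h; cases b <;> simpa [dp] using h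
  | succ k ih =>
    intro c h
    rw [dp_succ, List.append_assoc] at h
    have h1 := C.hyp.del tag (dp k ++ w)
    rw [h, map_nsmul, ev_hom D _ C.hD, smul_smul] at h1
    rw [ih _ h1.symm]
    congr 1
    cases b
    · simp
    · simp only [cond_true]
      ring

theorem Ctx.acc (C : Ctx b P D f ys) {m s z : ℕ} (hs : Bd ys.length m s) (hz : Bd ys.length 127 z)
    (hm : m + 16129 < 2097152) (sg : Bool) {e : ℕ} (he : e < 7) :
    Bd ys.length (m + 16129) (s + cf sg e * z) ∧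
      ev ys (s + cf sg e * z) = ev ys s + (cond sg 1 (-1) : ℤ) • (2 ^ e • ev ys z) := by
  obtain ⟨c1, c2⟩ := cf_spec (A := A) sg he
  have hc : cf sg e * 127 ≤ 16129 := by omega
  obtain ⟨k1, k2⟩ := Bd.smul ys hz (cf sg e) (by omega)
  have k1' : Bd ys.length 16129 (cf sg e * z) := k1.mono hc
  obtain ⟨j1, j2⟩ := Bd.add ys hs k1' hm
  exact ⟨j1, by rw [j2, k2, c2 _ (ev_kill 127 C.h127 z)]⟩

theorem Ctx.loop_spec (C : Ctx b P D f ys) {T : Tr} {i κ zT zZ : ℕ} {fin : ℤ → ℕ → ℕ → Bool}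
    (hT : ∀ κ' i' zT' zZ' w h, Mem κ' i' zT' zZ' w h T → i' < i → Good f ys κ' (cond b zZ' zT'))
    (hz : Bd ys.length 127 (cond b zZ zT)) {x : A} (hx : ∀ tag w, KeyOf tag w κ → f tag w = x)
    {w : List ℕ} (hw : small w = true) {L : List Tm} {S : List (ℕ × Bool × List ℕ)}
    (hL : List.Forall₂ (TmOK (run w u0)) L S) :
    ∀ (h : ℕ) (c : ℤ) (sT sZ m : ℕ), Bd ys.length m (cond b sZ sT) →
      m + 16129 * L.length < 2097152 → loop T i κ zT zZ fin L h c sT sZ = true →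
      ∃ c' sT' sZ', fin c' sT' sZ' = true ∧
        ev ys (cond b sZ' sT') + c' • (x - ev ys (cond b zZ zT)) =
          ev ys (cond b sZ sT) + c • (x - ev ys (cond b zZ zT)) +
            (S.map fun t => (cond t.2.1 1 (-1) : ℤ) • f t.1 (w ++ t.2.2)).sum := by
  induction hL with
  | nil => intro h c sT sZ m _ _ hl; exact ⟨c, sT, sZ, hl, by simp⟩
  | @cons t s L S ht _ ih =>
    intro h c sT sZ m hs hm hl
    obtain ⟨e1, e2, e3, e4, e5, e6, e7⟩ := ht
    rw [List.length_cons] at hm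
    have hm' : m + 16129 + 16129 * L.length < 2097152 := by linarith
    have hm'' : m + 16129 < 2097152 := lt_of_le_of_lt (Nat.le_add_right _ _) hm'
    change cond (Nat.ble 7 (h % 8))
      (Nat.beq (key t.tag 0 t.A t.B) κ &&
        loop T i κ zT zZ fin L (h / 8) (c + cond t.sg 1 (-1)) (sT + cf t.sg 0 * zT)
          (sZ + cf t.sg 0 * zZ))
      (find T (key t.tag (h % 8) t.A t.B) fun i' zT' zZ' =>
        Nat.blt i' i && loop T i κ zT zZ fin L (h / 8) c (sT + cf t.sg 0 * zT')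
          (sZ + cf t.sg (h % 8) * zZ')) = true at hl
    rw [e1, e2, e6, e7] at hl
    rw [List.map_cons, List.sum_cons]
    cases h1 : Nat.ble 7 (h % 8)
    · rw [h1, cond_false] at hl
      have hk : h % 8 < 7 := by
        by_contra hcon
        rw [Nat.ble_eq_true_of_le (not_lt.1 hcon)] at h1
        exact absurd h1 (by simp)
      obtain ⟨i', zT', zZ', w', h', hm1, hm2⟩ := find_spec hl
      rw [Bool.and_eq_true] at hm2
      obtain ⟨g1, g2⟩ := hT _ _ _ _ _ _ hm1 (by simpa using hm2.1)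
      have g3 := C.shift s.1 (cond b zZ' zT') (w ++ s.2.2) (h % 8) 1
        (by rw [one_smul]; exact g2 _ _ (key_spec e3 hk hw e4 e5))
      have he : cond b (h % 8) 0 < 7 := by cases b <;> simp [hk]
      obtain ⟨a1, a2⟩ := C.acc hs g1 hm'' s.2.1 he
      have e : cond b (sZ + cf s.2.1 (h % 8) * zZ') (sT + cf s.2.1 0 * zT') =
          cond b sZ sT + cf s.2.1 (cond b (h % 8) 0) * cond b zZ' zT' := by cases b <;> rfl
      obtain ⟨c', sT', sZ', r1, r2⟩ := ih _ _ _ _ _ (e ▸ a1) hm' hm2.2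
      refine ⟨c', sT', sZ', r1, ?_⟩
      rw [r2, e, a2, g3, mul_one]
      abel
    · rw [h1, cond_true, Bool.and_eq_true] at hl
      have g2 := key_spec e3 (k := 0) (by norm_num) hw e4 e5
      rw [Nat.eq_of_beq_eq_true hl.1] at g2
      have g3 : f s.1 (w ++ s.2.2) = x := hx _ _ g2
      obtain ⟨a1, a2⟩ := C.acc hs hz hm'' s.2.1 (e := 0) (by norm_num)
      have e : cond b (sZ + cf s.2.1 0 * zZ) (sT + cf s.2.1 0 * zT) =
          cond b sZ sT + cf s.2.1 0 * cond b zZ zT := by cases b <;> rfl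
      obtain ⟨c', sT', sZ', r1, r2⟩ := ih _ _ _ _ _ (e ▸ a1) hm' hl.2
      refine ⟨c', sT', sZ', r1, ?_⟩
      rw [r2, e, a2, g3, pow_zero, one_smul, add_smul, smul_sub, smul_sub]
      abel

theorem terms_length (u : V) : (terms u).length = 12 := rfl

theorem Ctx.zero2 (C : Ctx b P D f ys) {s t : ℕ} (h1 : zero P s = true) (h2 : zero P t = true) :
    ev ys (cond b t s) = 0 := by
  cases b
  exacts [ev_of_zero C.h14 C.h127 h1, ev_of_zero C.h14 C.h127 h2]

theorem Ctx.msk2 (C : Ctx b P D f ys) {s t : ℕ} (h1 : msk P.m7 s = true) (h2 : msk P.m7 t = true) :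
    Bd ys.length 127 (cond b t s) := by
  rw [C.h7] at h1 h2
  cases b
  exacts [Bd_of_msk (by norm_num) h1, Bd_of_msk (by norm_num) h2]

theorem Ctx.ent (C : Ctx b P D f ys) {T : Tr} {i κ zT zZ w h : ℕ}
    (hT : ∀ κ' i' zT' zZ' w h, Mem κ' i' zT' zZ' w h T → i' < i → Good f ys κ' (cond b zZ' zT'))
    (he : entOK P T κ i zT zZ w h = true) : Good f ys κ (cond b zZ zT) := by
  unfold entOK at he
  cases h1 : Nat.blt h 68719476736
  · rw [h1, cond_false] at he
    simp only [Bool.and_eq_true] at he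
    obtain ⟨⟨⟨m1, m2⟩, hw⟩, hl⟩ := he
    have hz := C.msk2 m1 m2
    obtain ⟨x, hx⟩ := C.hyp.exists_val κ
    obtain ⟨c, sT, sZ, r1, r2⟩ := C.loop_spec hT hz hx hw (terms_ok _) h 0 0 0 0
      (by cases b <;> exact Bd_zero _ _) (by rw [terms_length]; norm_num) hl
    simp only [Bool.and_eq_true] at r1
    rw [C.zero2 r1.1.2 r1.2, C.hyp.rel, Bool.cond_self, ev_zero] at r2
    simp only [zero_add, zero_smul, add_zero] at r2
    have hc : c.natAbs = 1 := Nat.eq_of_beq_eq_true r1.1.1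
    have : x - ev ys (cond b zZ zT) = 0 := by
      rcases Int.natAbs_eq_iff.1 hc with rfl | rfl
      · simpa using r2
      · rw [neg_smul, neg_eq_zero] at r2
        simpa using r2
    exact ⟨hz, fun tag w h => (hx tag w h).trans (sub_eq_zero.1 this)⟩
  · rw [h1, cond_true] at he
    simp only [genOK, Bool.and_eq_true] at he
    obtain ⟨⟨⟨⟨⟨g1, g2⟩, g3⟩, g4⟩, g5⟩, g6⟩ := he
    have e : cond b zZ zT = unit ys.length h := by
      rw [Nat.eq_of_beq_eq_true g5, Nat.eq_of_beq_eq_true g6, Bool.cond_self, C.hn]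
    have k := wkey_spec (k := 0) (Nat.blt_eq.mp g2) (by norm_num) g3
    rw [Nat.eq_of_beq_eq_true g4] at k
    rw [e]
    refine ⟨?_, fun tag w hk => (C.hyp.key hk k).trans (C.gen h (by simpa using g1))⟩
    rcases lt_or_ge h ys.length with hl | hl
    · exact (unit_lt ys hl).1.mono (by norm_num)
    · rw [unit_ge hl]; exact Bd_zero _ _

theorem Ctx.good (C : Ctx b P D f ys) {T : Tr} (hT : ∀ c < 16, treeOK P T c T = true) (i : ℕ) :
    ∀ κ zT zZ w h, Mem κ i zT zZ w h T → Good f ys κ (cond b zZ zT) := by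
  induction i using Nat.strong_induction_on with
  | _ i ih =>
    intro κ zT zZ w h hm
    exact C.ent (fun κ' i' zT' zZ' w h hm hi => ih i' hi κ' zT' zZ' w h hm)
      (treeOK_spec (hT _ (Nat.mod_lt _ (by norm_num))) hm)

theorem Ctx.left (C : Ctx b P D f ys) {T : Tr} (hT : ∀ c < 16, treeOK P T c T = true)
    {r : ℕ × ℕ × ℕ × ℕ} (hr : leftOK P T r = true) :
    Bd ys.length 127 (cond b r.2.2.2 r.2.2.1) ∧ ev ys (cond b r.2.2.2 r.2.2.1) = 0 := by
  simp only [leftOK, Bool.and_eq_true] at hr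
  obtain ⟨⟨⟨m1, m2⟩, hw⟩, hl⟩ := hr
  have hz := C.msk2 m1 m2
  obtain ⟨x, hx⟩ := C.hyp.exists_val 0
  obtain ⟨k1, k2⟩ := Bd.smul ys hz 126 (by norm_num)
  have e : cond b (Nat.mul 126 r.2.2.2) (Nat.mul 126 r.2.2.1) = 126 * cond b r.2.2.2 r.2.2.1 := by
    cases b <;> rfl
  obtain ⟨c, sT, sZ, r1, r2⟩ := C.loop_spec (fun κ' i' zT' zZ' w h hm _ => C.good hT i' κ' zT' zZ' w h hm)
    (by rw [Bool.cond_self]; exact Bd_zero _ _) hx hw (terms_ok _) _ 0 _ _ _ (e ▸ k1)
    (by rw [terms_length]; norm_num) hl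
  simp only [Bool.and_eq_true] at r1
  have hc : c = 0 := Int.natAbs_eq_zero.1 (Nat.eq_of_beq_eq_true r1.1.1)
  rw [C.zero2 r1.1.2 r1.2, C.hyp.rel, hc, e, k2] at r2
  simp only [zero_smul, add_zero] at r2
  exact ⟨hz, kill126 (ev_kill 127 C.h127 _) r2.symm⟩

theorem Ctx.tar (C : Ctx b P D f ys) {T : Tr} (hT : ∀ c < 16, treeOK P T c T = true)
    (h0 : ∀ y ∈ ys, y = 0) {tag k : ℕ} {w : List ℕ} (h : tarOK T tag k w = true) : f tag w = 0 := by
  simp only [tarOK, Bool.and_eq_true] at h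
  obtain ⟨⟨⟨h1, h2⟩, h3⟩, h4⟩ := h
  obtain ⟨i, zT, zZ, w', h', hm, -⟩ := find_spec h4
  have g := (C.good hT i _ _ _ _ _ hm).2 _ _ (wkey_spec (by simpa using h2) (by simpa using h1) h3)
  have e : ev ys (cond b zZ zT) = 0 := by
    rw [← one_nsmul (ev _ _)]
    exact ev_kill 1 (fun y hy => by rw [h0 y hy, smul_zero]) (cond b zZ zT)
  rw [C.shift tag _ w k 1 (by rw [one_smul]; exact g), e, smul_zero]

theorem tar7_spec {T : Tr} {g : ℕ × ℕ} (L : List (List ℕ)) :
    ∀ h, tar7 T g L h = true → ∀ s ∈ L, ∃ k, tarOK T g.1 k (s ++ dec g.2) = true := by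
  induction L with
  | nil => simp
  | cons s L ih =>
    intro h hh t ht
    change (tarOK T g.1 (h % 8) (s ++ dec g.2) && tar7 T g L (h / 8)) = true at hh
    rw [Bool.and_eq_true] at hh
    rcases List.mem_cons.1 ht with rfl | ht
    exacts [⟨_, hh.1⟩, ih _ hh.2 t ht]

theorem tarsOK_spec {T : Tr} (G : List (ℕ × ℕ)) :
    ∀ H, tarsOK T G H = true → ∀ g ∈ G, ∀ s ∈ sw, ∃ k, tarOK T g.1 k (s ++ dec g.2) = true := by
  induction G with
  | nil => simp
  | cons g G ih =>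
    intro H hh g' hg
    change (tar7 T g sw (H.headD 0) && tarsOK T G H.tail) = true at hh
    rw [Bool.and_eq_true] at hh
    rcases List.mem_cons.1 hg with rfl | hg
    exacts [tar7_spec _ _ hh.1, ih _ hh.2 g' hg]

theorem gen_spec (F : ℕ × ℕ → A) (G1 G2 : List (ℕ × ℕ)) (h : ∀ g ∈ G2, F g = 0) (j : ℕ)
    (hj : j < (G1 ++ G2).length) :
    F ((G1 ++ G2).getD j (0, 0)) = ev (G1.map F) (unit (G1.map F).length j) := by
  rw [List.getD_eq_getElem _ _ hj]
  rcases lt_or_ge j G1.length with hl | hl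
  · rw [(unit_lt (G1.map F) (by simpa using hl)).2, List.getElem_append_left hl, List.getElem_map]
  · rw [unit_ge (by simpa using hl), ev_zero, List.getElem_append_right hl]
    exact h _ (List.getElem_mem _)

end Pool.Agent.MP_00906f_gt.H46C
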