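import Pool.Agent.MP_00906f_gt.H46C.Data

/-! What the certificate proves. -/

namespace Pool.Agent.MP_00906f_gt.H46C

def cr (x : V) : ℕ → ℤ
  | 0 => x.a0
  | 1 => x.a1
  | 2 => x.a2
  | 3 => x.a3
  | 4 => x.a4
  | 5 => x.a5
  | _ => 0

/-- The two pairs have the same minors. -/
def Same (a b a' b' : V) : Prop :=
  ∀ i j, i < j → j < 6 →
    cr a i * cr b j - cr a j * cr b i = cr a' i * cr b' j - cr a' j * cr b' i

/-- A function on words that only depends on the plane, satisfies the relation and is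
equivariant. -/
structure Hyp {A : Type} [AddCommGroup A] (D : A →+ A) (f : ℕ → List ℕ → A) : Prop where
  pl : ∀ tag w w', tag < 2 →
    Same (act w (p1 tag)) (act w (p2 tag)) (act w' (p1 tag)) (act w' (p2 tag)) → f tag w = f tag w'
  rel : ∀ w, (tspec.map fun t => (cond t.2.1 1 (-1) : ℤ) • f t.1 (w ++ t.2.2)).sum = 0
  del : ∀ tag w, D (f tag (dinv ++ w)) = f tag w

/-- The conclusion. -/
def Concl {A : Type} [AddCommGroup A] (f : ℕ → List ℕ → A) : Prop :=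
  (∀ g ∈ seeds ++ [b0], f g.1 (dec g.2) = 0) ∧
    (∀ g ∈ b0 :: bas, ∀ s ∈ sw, f g.1 (s ++ dec g.2) = 0) ∧ f 0 [] = 0 ∧ f 1 [] = 0

def StmtT : Prop :=
  ∀ (A : Type) [AddCommGroup A] (D : A →+ A) (f : ℕ → List ℕ → A), Hyp D f →
    (∀ g ∈ seeds ++ [b0], (127 : ℕ) • f g.1 (dec g.2) = 0) →
    (∀ g ∈ seeds ++ [b0], D (f g.1 (dec g.2)) = f g.1 (dec g.2)) →
    (∀ g ∈ bas, f g.1 (dec g.2) = 0) → Concl f

def StmtZ : Prop :=
  ∀ (A : Type) [AddCommGroup A] (D : A →+ A) (f : ℕ → List ℕ → A), Hyp D f →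
    (∀ g ∈ seeds, (127 : ℕ) • f g.1 (dec g.2) = 0) →
    (∀ g ∈ seeds, D (f g.1 (dec g.2)) = (2 : ℕ) • f g.1 (dec g.2)) →
    (∀ g ∈ b0 :: bas, f g.1 (dec g.2) = 0) → Concl f

theorem bas_length : bas.length = 87 := by decide

end Pool.Agent.MP_00906f_gt.H46C
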