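import Pool.Agent.MP_00906f_gt.H46C.Main
import Pool.Agent.MP_00906f_gt.H33U.PL
import Pool.Agent.MP_00906f_gt.H33U.REL
import Pool.Agent.MP_00906f_gt.H33U.Lift

/-! Genus three: from the certificate to the bound on the dimension. -/

noncomputable section

namespace Pool.Agent.MP_00906f_gt.H46C

open H46 H33U
open H91 (g0 w1 w2 w3)

variable {G H M : Type} [Group G] [AddCommGroup H] [AddCommGroup M] [Module ℚ M] (D : Dat6 G H M)

namespace Up

/-- The group element of a letter. -/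
def lt (l : ℕ) : G :=
  if l < 12 then (if l % 2 = 0 then D.σ (l / 2) else (D.σ (l / 2))⁻¹) else 1

/-- The group element of a word. -/
def ew (w : List ℕ) : G := (w.map (lt D)).prod

theorem ew_cons (l : ℕ) (w : List ℕ) : ew D (l :: w) = lt D l * ew D w := by simp [ew]

theorem ew_append (w w' : List ℕ) : ew D (w ++ w') = ew D w * ew D w' := by simp [ew]

/-- The vector with the given coordinates. -/
def vec (x : V) : H :=
  x.a0 • D.c 0 + x.a1 • D.c 1 + x.a2 • D.c 2 + x.a3 • D.c 3 + x.a4 • D.c 4 + x.a5 • D.c 5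

theorem om (x : V) {i : ℕ} (hi : i < 6) : D.ω (vec D x) (D.c i) =
    (if i = 0 then 0 else cr x (i - 1)) - cr x (i + 1) := by
  have h6 := D.h6
  have h : ∀ j k, j < 6 → k < 6 → D.ω (D.c j) (D.c k) =
      (if k = j + 1 then 1 else 0) - (if j = k + 1 then 1 else 0) :=
    fun j k hj hk => D.toSys.lat_ωcc (by omega) (by omega)
  simp only [vec, map_add, map_smul, LinearMap.add_apply, LinearMap.smul_apply,
    h 0 i (by omega) hi, h 1 i (by omega) hi, h 2 i (by omega) hi, h 3 i (by omega) hi,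
    h 4 i (by omega) hi, h 5 i (by omega) hi, smul_eq_mul]
  interval_cases i <;> simp [cr] <;> ring

theorem ρ_lt (l : ℕ) (x : V) : D.ρ (lt D l) (vec D x) = vec D (tv l x) := by
  have h6 := D.h6
  by_cases hl : l < 12
  · have h1 := D.ρσ (l / 2) (by omega) (vec D x)
    have h2 := D.toSys.ρσ_inv (i := l / 2) (by omega) (vec D x)
    rw [om D x (by omega)] at h1 h2
    interval_cases l <;> simp only [lt] <;> norm_num at h1 h2 ⊢ <;>
      first
        | (rw [h1]; simp only [vec, tv, cr]; module)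
        | (rw [h2]; simp only [vec, tv, cr]; module)
  · obtain ⟨k, rfl⟩ : ∃ k, l = k + 12 := ⟨l - 12, by omega⟩
    rw [lt, if_neg hl, D.toSys.ρ_one]
    rfl

theorem ρ_ew (w : List ℕ) (x : V) : D.ρ (ew D w) (vec D x) = vec D (act w x) := by
  induction w with
  | nil => exact D.toSys.ρ_one _
  | cons l w ih => rw [ew_cons, D.toSys.ρ_mul, ih, ρ_lt, act_cons]

theorem vec_surj (x : H) : ∃ y, x = vec D y := by
  obtain ⟨crd, hc⟩ := exists_crd D
  refine ⟨⟨crd 0 x, crd 1 x, crd 2 x, crd 3 x, crd 4 x, crd 5 x⟩, ?_⟩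
  conv_lhs => rw [PL.crd_sum D crd hc x]
  simp [Finset.sum_range_succ, vec]

theorem π_act {w w' : List ℕ} (h : ∀ x, act w x = act w' x) : D.π (ew D w) = D.π (ew D w') := by
  refine K1.π_congr D _ _ (LinearMap.ext fun x => ?_)
  obtain ⟨y, rfl⟩ := vec_surj D x
  rw [ρ_ew, ρ_ew, h]

/-- The two classes. -/
def tt (tag : ℕ) : M := if tag = 0 then D.t3 else D.t5

/-- The class attached to a word. -/
def vw (tag : ℕ) (w : List ℕ) : M := D.π (ew D w) (tt D tag)

theorem vw_append (tag : ℕ) (w w' : List ℕ) :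
    vw D tag (w ++ w') = D.π (ew D w) (vw D tag w') := by
  rw [vw, ew_append, K1.π_mul, vw]

theorem vw_pl (tag : ℕ) (w w' : List ℕ)
    (h : Same (act w (p1 tag)) (act w (p2 tag)) (act w' (p1 tag)) (act w' (p2 tag))) :
    vw D tag w = vw D tag w' := by
  obtain ⟨crd, hc⟩ := exists_crd D
  have e : ∀ i, i < 6 → ∀ x, crd i (vec D x) = cr x i := fun i hi x => by
    simp only [vec, map_add, map_zsmul, hc i 0 hi (by omega), hc i 1 hi (by omega),
      hc i 2 hi (by omega), hc i 3 hi (by omega), hc i 4 hi (by omega), hc i 5 hi (by omega)]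
    interval_cases i <;> simp [cr]
  have key : ∀ i j, i < j → j < 6 →
      minor crd i j (D.ρ (ew D w) (vec D (p1 tag))) (D.ρ (ew D w) (vec D (p2 tag))) =
      minor crd i j (D.ρ (ew D w') (vec D (p1 tag))) (D.ρ (ew D w') (vec D (p2 tag))) := by
    intro i j hij hj
    simp only [minor, ρ_ew, e i (by omega), e j hj]
    exact h i j hij hj
  by_cases ht : tag = 0
  · subst ht
    have e1 : vec D (p1 0) = D.c 0 := by simp [vec, p1]
    have e2 : vec D (p2 0) = D.c 1 := by simp [vec, p2]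
    rw [e1, e2] at key
    simpa [vw, tt] using pl3 D crd hc _ _ key
  · have e1 : vec D (p1 tag) = D.c 0 + D.c 2 + D.c 4 := by simp [vec, p1, ht]
    have e2 : vec D (p2 tag) = D.c 5 := by simp [vec, p2, ht]
    rw [e1, e2] at key
    simpa [vw, tt, ht] using pl5 D crd hc _ _ key

theorem vw_rel0 : (tspec.map fun t => (cond t.2.1 1 (-1) : ℤ) • vw D t.1 t.2.2).sum = 0 := by
  have l0 : lt D 0 = D.σ 0 := by simp [lt]
  have l2 : lt D 2 = D.σ 1 := by simp [lt]
  have l4 : lt D 4 = D.σ 2 := by simp [lt]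
  have l5 : lt D 5 = (D.σ 2)⁻¹ := by simp [lt]
  have l6 : lt D 6 = D.σ 3 := by simp [lt]
  have l7 : lt D 7 = (D.σ 3)⁻¹ := by simp [lt]
  have l8 : lt D 8 = D.σ 4 := by simp [lt]
  have l9 : lt D 9 = (D.σ 4)⁻¹ := by simp [lt]
  have n0 : ew D [] = 1 := rfl
  have y0 : ew D wy0 = yy D.σ 0 := by
    simp only [wy0, ew_cons, n0, l0, l2, yy, pow_succ, pow_zero, mul_assoc, one_mul, mul_one]
  have y1 : ew D wy1 = yy D.σ 1 := by
    rw [wy1, ew_append, ew_append, y0]
    simp only [ew_cons, n0, l4, l5, mul_one]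
    rfl
  have y2 : ew D wy2 = yy D.σ 2 := by
    rw [wy2, ew_append, ew_append, y1]
    simp only [ew_cons, n0, l6, l7, mul_one]
    rfl
  have g : ew D wg0 = g0 D.σ := by
    simp only [wg0, ew_cons, n0, l0, l2, l4, l6, g0, mul_assoc, mul_one]
  have h := rel D
  simp only [H33U.Rel, w1, w2, w3, mul_assoc] at h
  simp only [tspec, List.map_cons, List.map_nil, List.sum_cons, List.sum_nil, vw, tt, ew_append,
    y1, y2, g, ew_cons, n0, l4, l5, l6, l7, l8, l9, mul_one, mul_assoc, cond_true, cond_false,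
    one_ne_zero, if_true, if_false, map_one, Module.End.one_apply]
  linear_combination (norm := module) h

/-- The rotation. -/
def dd : Module.End ℚ M := D.π (ew D dinv)⁻¹

theorem dd_vw (tag : ℕ) (w : List ℕ) : dd D (vw D tag (dinv ++ w)) = vw D tag w := by
  rw [vw_append, dd, ← K1.π_mul, inv_mul_cancel, map_one, Module.End.one_apply]

theorem hyp {A : Type} [AddCommGroup A] (φ : M →+ A) (E : A →+ A)
    (h : ∀ m, E (φ m) = φ (dd D m)) : Hyp E fun tag w => φ (vw D tag w) where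
  pl tag w w' _ hs := by rw [vw_pl D tag w w' hs]
  rel w := by
    have := congrArg (fun m => φ (D.π (ew D w) m)) (vw_rel0 D)
    simp only [map_list_sum, List.map_map, map_zero] at this
    simpa only [Function.comp_def, map_zsmul, vw_append] using this
  del tag w := by rw [h, dd_vw]

theorem dd_pow (tag k : ℕ) (w : List ℕ) : (dd D ^ k) (vw D tag (dp k ++ w)) = vw D tag w := by
  induction k with
  | zero => rfl
  | succ k ih => rw [pow_succ, Module.End.mul_apply, dp_succ, List.append_assoc, dd_vw, ih]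

theorem act7 (x : V) : act (dp 7) x = ⟨-x.a0, -x.a1, -x.a2, -x.a3, -x.a4, -x.a5⟩ := by
  simp only [dp, List.nil_append, act_append, act_dinv, V.mk.injEq]
  refine ⟨?_, ?_, ?_, ?_, ?_, ?_⟩ <;> ring

theorem vw7 (tag : ℕ) (w : List ℕ) : vw D tag (dp 7 ++ w) = vw D tag w := by
  refine vw_pl D tag _ _ fun i j hij hj => ?_
  rw [act_append, act_append, act7, act7]
  have hi : i < 6 := by omega
  interval_cases i <;> interval_cases j <;> simp only [cr] <;> ring

theorem ew_surj (g : G) : ∃ w, g = ew D w := by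
  have h6 := D.h6
  have hi : ∀ w, ∃ w', (ew D w)⁻¹ = ew D w' := fun w => by
    induction w with
    | nil => exact ⟨[], inv_one⟩
    | cons l w ih =>
      obtain ⟨w', h⟩ := ih
      have : ∃ l', (lt D l)⁻¹ = lt D l' := by
        by_cases hl : l < 12
        · by_cases h2 : l % 2 = 0
          · exact ⟨l + 1, by
              rw [lt, lt, if_pos hl, if_pos h2, if_pos (by omega), if_neg (by omega),
                show (l + 1) / 2 = l / 2 by omega]⟩
          · exact ⟨l - 1, by
              rw [lt, lt, if_pos hl, if_neg h2, if_pos (by omega), if_pos (by omega),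
                show (l - 1) / 2 = l / 2 by omega, inv_inv]⟩
        · exact ⟨l, by rw [lt, if_neg hl, inv_one]⟩
      obtain ⟨l', hl'⟩ := this
      exact ⟨w' ++ [l'], by rw [ew_cons, mul_inv_rev, h, hl', ew_append, ew_cons]; simp [ew]⟩
  refine Subgroup.closure_induction (p := fun g _ => ∃ w, g = ew D w) ?_ ⟨[], rfl⟩ ?_ ?_ (D.hB g)
  · rintro _ ⟨i, hi, rfl⟩
    have hi' : i < D.N := hi
    refine ⟨[2 * i], ?_⟩
    rw [ew_cons, lt, if_pos (by omega), if_pos (by omega), show 2 * i / 2 = i by omega]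
    simp [ew]
  · rintro _ _ _ _ ⟨w, rfl⟩ ⟨w', rfl⟩
    exact ⟨w ++ w', (ew_append D w w').symm⟩
  · rintro _ _ ⟨w, rfl⟩
    exact hi w

theorem top {U : Submodule ℚ M} (h : ∀ tag w, tag < 2 → vw D tag w ∈ U) : U = ⊤ := by
  rw [eq_top_iff, ← K1.gen D, Submodule.span_le]
  rintro _ (⟨g, rfl⟩ | ⟨g, rfl⟩) <;> obtain ⟨w, rfl⟩ := ew_surj D g
  · simpa [vw, tt] using h 0 w (by omega)
  · simpa [vw, tt] using h 1 w (by omega)

theorem dd7 : dd D ^ 7 = 1 := by
  have := top D (U := LinearMap.ker (dd D ^ 7 - 1)) fun tag w _ => by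
    rw [LinearMap.mem_ker, LinearMap.sub_apply, Module.End.one_apply, sub_eq_zero]
    conv_lhs => rw [← vw7]
    exact dd_pow D tag 7 w
  exact sub_eq_zero.1 (LinearMap.ker_eq_top.1 this)

/-- The norm of the rotation. -/
def nn : Module.End ℚ M := ∑ k ∈ Finset.range 7, dd D ^ k

theorem nn_mul : nn D * (dd D - 1) = 0 := by rw [nn, geom_sum_mul, dd7, sub_self]

theorem mul_nn : (dd D - 1) * nn D = 0 := by rw [nn, mul_geom_sum, dd7, sub_self]

/-- The invariant part. -/
def UT : Submodule ℚ M :=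
  Submodule.span ℚ (Set.range fun i : Fin bas.length => nn D (vw D (bas.get i).1 (dec (bas.get i).2)))

/-- The remaining part. -/
def UZ : Submodule ℚ M :=
  Submodule.span ℚ (Set.range fun x : Fin 6 × Fin (b0 :: bas).length =>
    (dd D ^ (x.1 : ℕ)) ((dd D - 1) (vw D ((b0 :: bas).get x.2).1 (dec ((b0 :: bas).get x.2).2))))

theorem UT_mem {g : ℕ × ℕ} (hg : g ∈ bas) : nn D (vw D g.1 (dec g.2)) ∈ UT D := by
  obtain ⟨i, rfl⟩ := List.mem_iff_get.1 hg
  exact Submodule.subset_span ⟨i, rfl⟩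

theorem UZ_mem {g : ℕ × ℕ} (hg : g ∈ b0 :: bas) {j : ℕ} (hj : j < 6) :
    (dd D ^ j) ((dd D - 1) (vw D g.1 (dec g.2))) ∈ UZ D := by
  obtain ⟨i, rfl⟩ := List.mem_iff_get.1 hg
  exact Submodule.subset_span ⟨(⟨j, hj⟩, i), rfl⟩

theorem UT_dd : UT D ≤ (UT D).comap (dd D) := by
  refine Submodule.span_le.2 ?_
  rintro _ ⟨i, rfl⟩
  have := LinearMap.congr_fun (mul_nn D) (vw D (bas.get i).1 (dec (bas.get i).2))
  rw [Module.End.mul_apply, LinearMap.sub_apply, Module.End.one_apply, LinearMap.zero_apply,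
    sub_eq_zero] at this
  change dd D _ ∈ UT D
  rw [this]
  exact UT_mem D (List.get_mem _ _)

theorem UZ_dd : UZ D ≤ (UZ D).comap (dd D) := by
  refine Submodule.span_le.2 ?_
  rintro _ ⟨⟨j, i⟩, rfl⟩
  change dd D _ ∈ UZ D
  rw [← Module.End.mul_apply, ← pow_succ']
  by_cases hj : (j : ℕ) + 1 < 6
  · exact UZ_mem D (List.get_mem _ _) hj
  · have e : (j : ℕ) + 1 = 6 := by omega
    have := LinearMap.congr_fun (nn_mul D)
      (vw D ((b0 :: bas).get i).1 (dec ((b0 :: bas).get i).2))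
    rw [Module.End.mul_apply, nn, Finset.sum_range_succ, LinearMap.add_apply,
      LinearMap.zero_apply, LinearMap.sum_apply] at this
    rw [e, eq_neg_of_add_eq_zero_right this]
    exact neg_mem (sum_mem fun k hk => UZ_mem D (List.get_mem _ _) (Finset.mem_range.1 hk))

theorem conclT : Concl fun tag w => (UT D).mkQ (nn D (vw D tag w)) := by
  let y : {g // g ∈ seeds ++ [b0]} → M ⧸ UT D := fun g => (UT D).mkQ (nn D (vw D g.1.1 (dec g.1.2)))
  have : Finite {g // g ∈ seeds ++ [b0]} := (List.finite_toSet _).to_subtype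
  let φ : M →+ (M ⧸ UT D) ⧸ J1 y :=
    (QuotientAddGroup.mk' (J1 y)).comp (((UT D).mkQ ∘ₗ nn D).toAddMonoidHom)
  have hφ : ∀ m, φ m = 0 ↔ (UT D).mkQ (nn D m) ∈ J1 y := fun m => QuotientAddGroup.eq_zero_iff _
  have hn : ∀ m, nn D (dd D m) = nn D m := fun m => by
    have := LinearMap.congr_fun (nn_mul D) m
    rwa [Module.End.mul_apply, LinearMap.sub_apply, Module.End.one_apply, LinearMap.zero_apply,
      map_sub, sub_eq_zero] at this
  have h := soundT _ (AddMonoidHom.id _) _ (hyp D φ (AddMonoidHom.id _) fun m => by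
      simp [φ, hn]) (fun g hg => by
      rw [← map_nsmul, hφ, map_nsmul, map_nsmul, ← natCast_zsmul]
      exact J1_mem y ⟨g, hg⟩) (fun _ _ => rfl) fun g hg => by
      rw [hφ, Submodule.mkQ_apply, (Submodule.Quotient.mk_eq_zero _).2 (UT_mem D hg)]
      exact zero_mem _
  have h0 := nak1 y fun g => (hφ _).1 (h.1 g.1 g.2)
  have hJ : J1 y ≤ ⊥ := (AddSubgroup.closure_le _).2 (by
    rintro _ ⟨g, rfl⟩
    simp [h0 g])
  have key : ∀ m, φ m = 0 → (UT D).mkQ (nn D m) = 0 := fun m hm => hJ ((hφ m).1 hm)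
  exact ⟨fun g hg => key _ (h.1 g hg), fun g hg s hs => key _ (h.2.1 g hg s hs), key _ h.2.2.1,
    key _ h.2.2.2⟩

theorem conclZ : Concl fun tag w => (UZ D).mkQ ((dd D - 1) (vw D tag w)) := by
  let y : {g // g ∈ seeds} → M ⧸ UZ D := fun g => (UZ D).mkQ ((dd D - 1) (vw D g.1.1 (dec g.1.2)))
  have : Finite {g // g ∈ seeds} := (List.finite_toSet _).to_subtype
  let e : Module.End ℚ (M ⧸ UZ D) := (UZ D).mapQ (UZ D) (dd D) (UZ_dd D)
  have he : ∀ m, e ((UZ D).mkQ m) = (UZ D).mkQ (dd D m) := fun m => rfl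
  have hek : ∀ (k : ℕ) m, (e ^ k) ((UZ D).mkQ m) = (UZ D).mkQ ((dd D ^ k) m) := fun k m => by
    induction k with
    | zero => rfl
    | succ k ih => rw [pow_succ', pow_succ', Module.End.mul_apply, Module.End.mul_apply, ih, he]
  have hd : ∀ g, (∑ k ∈ Finset.range 7, e ^ k) (y g) = 0 := fun g => by
    have := LinearMap.congr_fun (nn_mul D) (vw D g.1.1 (dec g.1.2))
    rw [Module.End.mul_apply, nn, LinearMap.sum_apply, LinearMap.zero_apply] at this
    rw [LinearMap.sum_apply]
    simp only [y, hek]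
    rw [← map_sum, this, map_zero]
  let φ : M →+ (M ⧸ UZ D) ⧸ J2 e y :=
    (QuotientAddGroup.mk' (J2 e y)).comp (((UZ D).mkQ ∘ₗ (dd D - 1)).toAddMonoidHom)
  let E : (M ⧸ UZ D) ⧸ J2 e y →+ (M ⧸ UZ D) ⧸ J2 e y :=
    QuotientAddGroup.map _ _ e.toAddMonoidHom fun v hv => J2_map e y hv
  have hφ : ∀ m, φ m = 0 ↔ (UZ D).mkQ ((dd D - 1) m) ∈ J2 e y :=
    fun m => QuotientAddGroup.eq_zero_iff _
  have hE : ∀ m, E (φ m) = φ (dd D m) := fun m => by
    change QuotientAddGroup.mk' (J2 e y) ((UZ D).mkQ (dd D ((dd D - 1) m))) =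
      QuotientAddGroup.mk' (J2 e y) ((UZ D).mkQ ((dd D - 1) (dd D m)))
    simp only [LinearMap.sub_apply, Module.End.one_apply, map_sub]
  have h := soundZ _ E _ (hyp D φ E hE) (fun g hg => by
      rw [← map_nsmul, hφ, map_nsmul, map_nsmul, ← natCast_zsmul]
      exact J2_127 e y ⟨g, hg⟩ (hd _)) (fun g hg => by
      rw [hE, ← sub_eq_zero, ← map_nsmul, ← map_sub, hφ, map_sub, map_sub, map_nsmul, map_nsmul,
        ← natCast_zsmul]
      have : (UZ D).mkQ (dd D ((dd D - 1) (vw D g.1 (dec g.2)))) -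
          (2 : ℤ) • (UZ D).mkQ ((dd D - 1) (vw D g.1 (dec g.2))) ∈ J2 e y := J2_sub e y ⟨g, hg⟩
      simpa only [LinearMap.sub_apply, Module.End.one_apply, map_sub, Nat.cast_ofNat] using this)
    fun g hg => by
      rw [hφ, Submodule.mkQ_apply,
        (Submodule.Quotient.mk_eq_zero _).2 (by simpa using UZ_mem D hg (j := 0) (by omega))]
      exact zero_mem _
  have h0 := nak2 e y hd fun g => (hφ _).1 (h.1 g.1 (List.mem_append_left _ g.2))
  have hJ : J2 e y ≤ ⊥ := (AddSubgroup.closure_le _).2 (by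
    rintro _ ⟨g, k, rfl⟩
    simp [h0 g])
  have key : ∀ m, φ m = 0 → (UZ D).mkQ ((dd D - 1) m) = 0 := fun m hm => hJ ((hφ m).1 hm)
  exact ⟨fun g hg => key _ (h.1 g hg), fun g hg s hs => key _ (h.2.1 g hg s hs), key _ h.2.2.1,
    key _ h.2.2.2⟩

theorem mem_U {m : M} (h1 : nn D m ∈ UT D) (h2 : (dd D - 1) m ∈ UZ D) : m ∈ UT D ⊔ UZ D := by
  have h3 : ∀ k : ℕ, (dd D ^ k) m - m ∈ UZ D := fun k => by
    induction k with
    | zero => simp
    | succ k ih =>
      have := add_mem (Submodule.mem_comap.1 (UZ_dd D ih)) h2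
      simpa [pow_succ'] using this
  have h4 : nn D m - (7 : ℚ) • m ∈ UZ D := by
    have := sum_mem (S := UZ D) (t := Finset.range 7) fun k _ => h3 k
    rw [Finset.sum_sub_distrib, ← LinearMap.sum_apply, Finset.sum_const, Finset.card_range,
      ← Nat.cast_smul_eq_nsmul ℚ] at this
    exact this
  have h5 : m = (1 / 7 : ℚ) • (nn D m - (nn D m - (7 : ℚ) • m)) := by module
  rw [h5]
  exact Submodule.smul_mem _ _
    (sub_mem (Submodule.mem_sup_left h1) (Submodule.mem_sup_right h4))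

theorem U_dd {m : M} (h : m ∈ UT D ⊔ UZ D) (k : ℕ) : (dd D ^ k) m ∈ UT D ⊔ UZ D := by
  induction k with
  | zero => exact h
  | succ k ih =>
    obtain ⟨a, ha, b, hb, e⟩ := Submodule.mem_sup.1 ih
    rw [pow_succ', Module.End.mul_apply, ← e, map_add]
    exact add_mem (Submodule.mem_sup_left (UT_dd D ha)) (Submodule.mem_sup_right (UZ_dd D hb))

theorem dd_dp (k : ℕ) : dd D ^ k * D.π (ew D (dp k)) = 1 := by
  induction k with
  | zero => exact (one_mul _).trans (map_one _)
  | succ k ih =>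
    rw [dp_succ, ew_append, map_mul, pow_succ, mul_assoc, ← mul_assoc (dd D), dd, ← map_mul,
      inv_mul_cancel, map_one, one_mul]
    exact ih

theorem π_dp {k : ℕ} (hk : k ≤ 7) : D.π (ew D (dp k)) = dd D ^ (7 - k) := by
  rw [← one_mul (D.π _), ← dd7 D, show 7 = (7 - k) + k by omega, pow_add, mul_assoc, dd_dp,
    mul_one, Nat.add_sub_cancel]

theorem conj {k : ℕ} (hk : k < 7) :
    D.π (D.σ 0) * dd D ^ (7 - k) = dd D ^ (7 - k) * D.π (ew D (sw.getD k [])) := by
  have e : D.σ 0 = ew D [0] := by simp [ew, lt]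
  rw [← π_dp D hk.le, e, ← map_mul, ← map_mul, ← ew_append, ← ew_append]
  refine π_act D fun x => ?_
  rw [act_append, act_append]
  interval_cases k <;>
    simp only [dp, List.nil_append, act_append, act_dinv, sw, List.getD_cons_succ,
      List.getD_cons_zero] <;>
    simp only [act, List.foldr, tv, V.mk.injEq] <;>
    refine ⟨?_, ?_, ?_, ?_, ?_, ?_⟩ <;> first | trivial | ring

theorem U_s0 : UT D ⊔ UZ D ≤ (UT D ⊔ UZ D).comap (D.π (D.σ 0)) := by
  have key : ∀ g ∈ b0 :: bas, ∀ k, k ≤ 7 →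
      D.π (D.σ 0) ((dd D ^ k) (vw D g.1 (dec g.2))) ∈ UT D ⊔ UZ D := by
    have k1 : ∀ g ∈ b0 :: bas, ∀ k, k < 7 →
        D.π (D.σ 0) ((dd D ^ (7 - k)) (vw D g.1 (dec g.2))) ∈ UT D ⊔ UZ D := fun g hg k hk => by
      rw [← Module.End.mul_apply, conj D hk, Module.End.mul_apply, ← vw_append]
      have hs : sw.getD k [] ∈ sw := by interval_cases k <;> simp [sw]
      exact U_dd D (mem_U D ((Submodule.Quotient.mk_eq_zero _).1 ((conclT D).2.1 g hg _ hs))
        ((Submodule.Quotient.mk_eq_zero _).1 ((conclZ D).2.1 g hg _ hs))) _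
    intro g hg k hk
    by_cases h0 : k = 0
    · have := k1 g hg 0 (by omega)
      rw [Nat.sub_zero, dd7] at this
      rwa [h0, pow_zero]
    · have := k1 g hg (7 - k) (by omega)
      rwa [show 7 - (7 - k) = k by omega] at this
  refine sup_le (Submodule.span_le.2 ?_) (Submodule.span_le.2 ?_)
  · rintro _ ⟨i, rfl⟩
    change D.π _ (nn D _) ∈ UT D ⊔ UZ D
    rw [nn, LinearMap.sum_apply, map_sum]
    exact sum_mem fun k hk => key _ (List.mem_cons_of_mem _ (List.get_mem _ _)) k
      (Finset.mem_range.1 hk).le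
  · rintro _ ⟨⟨j, i⟩, rfl⟩
    change D.π _ ((dd D ^ _) ((dd D - 1) _)) ∈ UT D ⊔ UZ D
    rw [LinearMap.sub_apply, Module.End.one_apply, map_sub, map_sub, ← Module.End.mul_apply (dd D ^ _),
      ← pow_succ]
    exact sub_mem (key _ (List.get_mem _ _) _ (by omega)) (key _ (List.get_mem _ _) _ (by omega))

theorem U_top : UT D ⊔ UZ D = ⊤ := by
  have h6 := D.h6
  have := D.fin
  have hs : ∀ g, ∀ m ∈ UT D ⊔ UZ D, D.π g m ∈ UT D ⊔ UZ D := fun g => by
    refine Subgroup.closure_induction (p := fun g _ => ∀ m ∈ UT D ⊔ UZ D, D.π g m ∈ UT D ⊔ UZ D)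
      ?_ (fun m hm => by simpa using hm) ?_ ?_ (D.hB g)
    · rintro _ ⟨i, hi, rfl⟩ m hm
      have hi' : i < D.N := hi
      have e : ew D (sw.getD i []) = D.σ i := by
        have : i < 6 := by omega
        interval_cases i <;> simp [sw, ew, lt]
      have h1 := U_dd D (U_s0 D (U_dd D hm (7 - i))) i
      rw [← Module.End.mul_apply (D.π _), conj D (by omega), e, ← Module.End.mul_apply, ← mul_assoc,
        ← pow_add, show i + (7 - i) = 7 by omega, dd7, one_mul] at h1
      exact h1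
    · intro a b _ _ ha hb m hm
      rw [K1.π_mul]
      exact ha _ (hb m hm)
    · intro a _ ha m hm
      have hinj : Function.Injective ((D.π a).restrict ha) := fun x y h => by
        have := congrArg (fun z : (UT D ⊔ UZ D : Submodule ℚ M) => D.π a⁻¹ z) h
        simp only [LinearMap.coe_restrict_apply, ← K1.π_mul, inv_mul_cancel, map_one,
          Module.End.one_apply] at this
        exact Subtype.ext this
      obtain ⟨z, hz⟩ := LinearMap.injective_iff_surjective.1 hinj ⟨m, hm⟩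
      have e : D.π a z = m := congrArg Subtype.val hz
      rw [← e, ← K1.π_mul, inv_mul_cancel, map_one, Module.End.one_apply]
      exact z.2
  refine top D fun tag w ht => ?_
  rw [← List.append_nil w, vw_append]
  refine hs _ _ ?_
  interval_cases tag
  · exact mem_U D ((Submodule.Quotient.mk_eq_zero _).1 (conclT D).2.2.1)
      ((Submodule.Quotient.mk_eq_zero _).1 (conclZ D).2.2.1)
  · exact mem_U D ((Submodule.Quotient.mk_eq_zero _).1 (conclT D).2.2.2)
      ((Submodule.Quotient.mk_eq_zero _).1 (conclZ D).2.2.2)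

end Up

include D in
open Up in
theorem up : Module.finrank ℚ M ≤ 615 := by
  have := D.fin
  have h1 : Module.finrank ℚ (UT D) ≤ _ := finrank_range_le_card _
  have h2 : Module.finrank ℚ (UZ D) ≤ _ := finrank_range_le_card _
  have h3 := Submodule.finrank_add_le_finrank_add_finrank (UT D) (UZ D)
  rw [U_top, finrank_top] at h3
  simp only [Fintype.card_prod, Fintype.card_fin, List.length_cons, bas_length] at h1 h2
  omega

end Pool.Agent.MP_00906f_gt.H46C
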